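import Mathlib

/-!
# Crossed random effects: the design, the Gaussian REML log-likelihood and `g₃`

Definitions for the balanced two-way crossed random effects model
`y i j = μ + u i + v j + e i j`.
-/

open Matrix MeasureTheory

namespace Q290.Eblup

/-- cells `(i, j)` of the two-way layout -/
abbrev Obs (m₁ m₂ : ℕ) := Fin m₁ × Fin m₂

/-- the random effects `(u, v)` -/
abbrev Eff (m₁ m₂ : ℕ) := Fin m₁ ⊕ Fin m₂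

/-- the design matrix `Z = (I ⊗ 1, 1 ⊗ I)` -/
def Z (m₁ m₂ : ℕ) : Matrix (Obs m₁ m₂) (Eff m₁ m₂) ℝ :=
  fun p k => Sum.elim (fun i => if p.1 = i then (1 : ℝ) else 0)
    (fun j => if p.2 = j then (1 : ℝ) else 0) k

/-- `G = diag (σ₁² I, σ₂² I)`, with `θ = (σ₀², σ₁², σ₂²)` -/
def G (m₁ m₂ : ℕ) (θ : Fin 3 → ℝ) : Matrix (Eff m₁ m₂) (Eff m₁ m₂) ℝ :=
  Matrix.diagonal (Sum.elim (fun _ => θ 1) (fun _ => θ 2))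

/-- `V = σ₀² I + Z G Z'` -/
def V (m₁ m₂ : ℕ) (θ : Fin 3 → ℝ) : Matrix (Obs m₁ m₂) (Obs m₁ m₂) ℝ :=
  θ 0 • (1 : Matrix (Obs m₁ m₂) (Obs m₁ m₂) ℝ) + Z m₁ m₂ * G m₁ m₂ θ * (Z m₁ m₂)ᵀ

/-- the vector of ones -/
def ones (m₁ m₂ : ℕ) : Obs m₁ m₂ → ℝ := fun _ => 1

/-- the grand mean -/
noncomputable def grand {m₁ m₂ : ℕ} (y : Obs m₁ m₂ → ℝ) : ℝ := (∑ p, y p) / (m₁ * m₂ : ℝ)

/-- the BLUP `ζ̃(θ) = a₀ ȳ + a' G Z' V⁻¹ (y - ȳ 1)`, `a = (a₁', a₂')'` -/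
noncomputable def blup {m₁ m₂ : ℕ} (a₀ : ℝ) (a₁ : Fin m₁ → ℝ) (a₂ : Fin m₂ → ℝ)
    (θ : Fin 3 → ℝ) (y : Obs m₁ m₂ → ℝ) : ℝ :=
  a₀ * grand y +
    Sum.elim a₁ a₂ ⬝ᵥ ((G m₁ m₂ θ * (Z m₁ m₂)ᵀ * (V m₁ m₂ θ)⁻¹) *ᵥ (fun p => y p - grand y))

/-- the Gaussian restricted log-likelihood (up to an additive constant):
`-½ (log |V| + log |1' V⁻¹ 1| + y' P y)`, `P = V⁻¹ - V⁻¹ 1 (1' V⁻¹ 1)⁻¹ 1' V⁻¹` -/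
noncomputable def reml {m₁ m₂ : ℕ} (θ : Fin 3 → ℝ) (y : Obs m₁ m₂ → ℝ) : ℝ :=
  -(1 / 2) * (Real.log (V m₁ m₂ θ).det
    + Real.log (ones m₁ m₂ ⬝ᵥ ((V m₁ m₂ θ)⁻¹ *ᵥ ones m₁ m₂))
    + (y ⬝ᵥ ((V m₁ m₂ θ)⁻¹ *ᵥ y)
        - (ones m₁ m₂ ⬝ᵥ ((V m₁ m₂ θ)⁻¹ *ᵥ y)) ^ 2 /
            (ones m₁ m₂ ⬝ᵥ ((V m₁ m₂ θ)⁻¹ *ᵥ ones m₁ m₂))))

/-- the derivative of `f` at `θ` in the coordinate `k` -/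
noncomputable def pd (k : Fin 3) (f : (Fin 3 → ℝ) → ℝ) (θ : Fin 3 → ℝ) : ℝ :=
  deriv (fun t => f (Function.update θ k t)) (θ k)

/-- the laws of the coordinates: `u i` has law `F 1`, `v j` has law `F 2`, `e i j` has law `F 0` -/
def lawFam (m₁ m₂ : ℕ) (F : Fin 3 → Measure ℝ) : (Eff m₁ m₂ ⊕ Obs m₁ m₂) → Measure ℝ :=
  Sum.elim (Sum.elim (fun _ => F 1) (fun _ => F 2)) (fun _ => F 0)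

/-- the joint law of `(u, v, e)`: all coordinates independent -/
noncomputable def joint (m₁ m₂ : ℕ) (F : Fin 3 → Measure ℝ) :
    Measure (Eff m₁ m₂ ⊕ Obs m₁ m₂ → ℝ) := Measure.pi (lawFam m₁ m₂ F)

/-- the data `y i j = μ + u i + v j + e i j` -/
def obs {m₁ m₂ : ℕ} (μ : ℝ) (ω : Eff m₁ m₂ ⊕ Obs m₁ m₂ → ℝ) : Obs m₁ m₂ → ℝ :=
  fun p => μ + ω (Sum.inl (Sum.inl p.1)) + ω (Sum.inl (Sum.inr p.2)) + ω (Sum.inr p)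

/-- `h = ∂ζ̃/∂θ` -/
noncomputable def hvec {m₁ m₂ : ℕ} (a₀ : ℝ) (a₁ : Fin m₁ → ℝ) (a₂ : Fin m₂ → ℝ)
    (θ : Fin 3 → ℝ) (y : Obs m₁ m₂ → ℝ) : Fin 3 → ℝ :=
  fun k => pd k (fun θ' => blup a₀ a₁ a₂ θ' y) θ

/-- `b = ∂l/∂θ` -/
noncomputable def bvec {m₁ m₂ : ℕ} (θ : Fin 3 → ℝ) (y : Obs m₁ m₂ → ℝ) : Fin 3 → ℝ :=
  fun k => pd k (fun θ' => reml θ' y) θ

/-- `A = E (∂²l/∂θ∂θ')` -/
noncomputable def Amat (m₁ m₂ : ℕ) (F : Fin 3 → Measure ℝ) (μ : ℝ) (θ : Fin 3 → ℝ) :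
    Matrix (Fin 3) (Fin 3) ℝ :=
  fun k l => ∫ ω, pd k (fun θ' => pd l (fun θ'' => reml θ'' (obs μ ω)) θ') θ ∂(joint m₁ m₂ F)

/-- `g₃ = E (h' A⁻¹ b)²` -/
noncomputable def g3 {m₁ m₂ : ℕ} (F : Fin 3 → Measure ℝ) (μ : ℝ) (θ : Fin 3 → ℝ)
    (a₀ : ℝ) (a₁ : Fin m₁ → ℝ) (a₂ : Fin m₂ → ℝ) : ℝ :=
  ∫ ω, (hvec a₀ a₁ a₂ θ (obs μ ω) ⬝ᵥ
    ((Amat m₁ m₂ F μ θ)⁻¹ *ᵥ bvec θ (obs μ ω))) ^ 2 ∂(joint m₁ m₂ F)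

/-- the laws `F 0, F 1, F 2` have mean `0`, variances `θ > 0`, fourth moments `κ` and finite
eighth moments -/
structure Admissible (F : Fin 3 → Measure ℝ) (θ κ : Fin 3 → ℝ) : Prop where
  prob : ∀ k, IsProbabilityMeasure (F k)
  pos : ∀ k, 0 < θ k
  mean : ∀ k, ∫ x, x ∂(F k) = 0
  var : ∀ k, ∫ x, x ^ 2 ∂(F k) = θ k
  kurt : ∀ k, ∫ x, x ^ 4 ∂(F k) = κ k
  eighth : ∀ k, Integrable (fun x : ℝ => x ^ 8) (F k)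

end Q290.Eblup
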