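import Mathlib
import Pool.Agent.Q290.Eblup.Defs

open Matrix MeasureTheory
open scoped Kronecker

namespace Q290.Eblup

variable {m₁ m₂ : ℕ}

def mA (m₁ m₂ : ℕ) : Matrix (Obs m₁ m₂) (Obs m₁ m₂) ℝ := fun p q => if p.1 = q.1 then 1 else 0
def mB (m₁ m₂ : ℕ) : Matrix (Obs m₁ m₂) (Obs m₁ m₂) ℝ := fun p q => if p.2 = q.2 then 1 else 0
def mJ (m₁ m₂ : ℕ) : Matrix (Obs m₁ m₂) (Obs m₁ m₂) ℝ := fun _ _ => 1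

lemma mA_mul_mA : mA m₁ m₂ * mA m₁ m₂ = (m₂ : ℝ) • mA m₁ m₂ := by
  ext p q
  simp only [Matrix.mul_apply, mA, Matrix.smul_apply, Fintype.sum_prod_type, smul_eq_mul]
  by_cases h : p.1 = q.1
  · simp [h]
  · simp [h]

lemma mB_mul_mB : mB m₁ m₂ * mB m₁ m₂ = (m₁ : ℝ) • mB m₁ m₂ := by
  ext p q
  simp only [Matrix.mul_apply, mB, Matrix.smul_apply, Fintype.sum_prod_type, smul_eq_mul]
  by_cases h : p.2 = q.2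
  · simp [h]
  · simp [h]

lemma mA_mul_mB : mA m₁ m₂ * mB m₁ m₂ = mJ m₁ m₂ := by
  ext p q
  simp only [Matrix.mul_apply, mA, mB, mJ, Fintype.sum_prod_type]
  simp

lemma mB_mul_mA : mB m₁ m₂ * mA m₁ m₂ = mJ m₁ m₂ := by
  ext p q
  simp only [Matrix.mul_apply, mA, mB, mJ, Fintype.sum_prod_type]
  simp

lemma mA_mul_mJ : mA m₁ m₂ * mJ m₁ m₂ = (m₂ : ℝ) • mJ m₁ m₂ := by
  ext p q
  simp only [Matrix.mul_apply, mA, mJ, Matrix.smul_apply, Fintype.sum_prod_type, smul_eq_mul,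
    mul_one]
  rw [Finset.sum_comm]
  simp

lemma mB_mul_mJ : mB m₁ m₂ * mJ m₁ m₂ = (m₁ : ℝ) • mJ m₁ m₂ := by
  ext p q
  simp only [Matrix.mul_apply, mB, mJ, Matrix.smul_apply, Fintype.sum_prod_type, smul_eq_mul]
  simp

lemma V_eq (θ : Fin 3 → ℝ) : V m₁ m₂ θ =
    θ 0 • (1 : Matrix (Obs m₁ m₂) (Obs m₁ m₂) ℝ) + θ 1 • mA m₁ m₂ + θ 2 • mB m₁ m₂ := by
  have h : Z m₁ m₂ * G m₁ m₂ θ * (Z m₁ m₂)ᵀ = θ 1 • mA m₁ m₂ + θ 2 • mB m₁ m₂ := by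
    ext p q
    simp only [Matrix.mul_apply, G, Matrix.transpose_apply,
      Fintype.sum_sum_type, Z, Sum.elim_inl, Sum.elim_inr, Matrix.add_apply, Matrix.smul_apply,
      mA, mB, smul_eq_mul]
    congr 1
    · by_cases h : p.1 = q.1
      · simp [h]
      · simp [h, eq_comm]
    · by_cases h : p.2 = q.2
      · simp [h]
      · simp [h, eq_comm]
  rw [V, h, add_assoc]

/-- the eigenvalues -/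
def l1 (m₂ : ℕ) (θ : Fin 3 → ℝ) : ℝ := θ 0 + m₂ * θ 1
def l2 (m₁ : ℕ) (θ : Fin 3 → ℝ) : ℝ := θ 0 + m₁ * θ 2
def l3 (m₁ m₂ : ℕ) (θ : Fin 3 → ℝ) : ℝ := θ 0 + m₂ * θ 1 + m₁ * θ 2

section pos
variable {θ : Fin 3 → ℝ} (hθ : ∀ k, 0 < θ k)
include hθ

lemma l1_pos (m₂ : ℕ) : 0 < l1 m₂ θ := by
  have h0 := hθ 0; have h1 := hθ 1
  unfold l1; positivity
lemma l2_pos (m₁ : ℕ) : 0 < l2 m₁ θ := by
  have h0 := hθ 0; have h1 := hθ 2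
  unfold l2; positivity
lemma l3_pos (m₁ m₂ : ℕ) : 0 < l3 m₁ m₂ θ := by
  have h0 := hθ 0; have h1 := hθ 1; have h2 := hθ 2
  unfold l3; positivity
end pos

noncomputable def c1 (m₂ : ℕ) (θ : Fin 3 → ℝ) : ℝ := -θ 1 / (θ 0 * l1 m₂ θ)
noncomputable def c2 (m₁ : ℕ) (θ : Fin 3 → ℝ) : ℝ := -θ 2 / (θ 0 * l2 m₁ θ)
noncomputable def c3 (m₁ m₂ : ℕ) (θ : Fin 3 → ℝ) : ℝ :=
  θ 1 * θ 2 * (1 / l1 m₂ θ + 1 / l2 m₁ θ) / (θ 0 * l3 m₁ m₂ θ)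

noncomputable def W (m₁ m₂ : ℕ) (θ : Fin 3 → ℝ) : Matrix (Obs m₁ m₂) (Obs m₁ m₂) ℝ :=
  (1 / θ 0) • (1 : Matrix (Obs m₁ m₂) (Obs m₁ m₂) ℝ) + c1 m₂ θ • mA m₁ m₂ + c2 m₁ θ • mB m₁ m₂
    + c3 m₁ m₂ θ • mJ m₁ m₂

lemma V_mul_W {θ : Fin 3 → ℝ} (hθ : ∀ k, 0 < θ k) : V m₁ m₂ θ * W m₁ m₂ θ = 1 := by
  have h0 := (hθ 0).ne'
  have h1 := (l1_pos hθ m₂).ne'
  have h2 := (l2_pos hθ m₁).ne'
  have h3 := (l3_pos hθ m₁ m₂).ne'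
  have key : V m₁ m₂ θ * W m₁ m₂ θ =
      (θ 0 * (1 / θ 0)) • (1 : Matrix (Obs m₁ m₂) (Obs m₁ m₂) ℝ)
      + (θ 0 * c1 m₂ θ + θ 1 * (1 / θ 0) + θ 1 * c1 m₂ θ * m₂) • mA m₁ m₂
      + (θ 0 * c2 m₁ θ + θ 2 * (1 / θ 0) + θ 2 * c2 m₁ θ * m₁) • mB m₁ m₂
      + (θ 0 * c3 m₁ m₂ θ + θ 1 * c2 m₁ θ + θ 1 * c3 m₁ m₂ θ * m₂ + θ 2 * c1 m₂ θ
          + θ 2 * c3 m₁ m₂ θ * m₁) • mJ m₁ m₂ := by
    rw [V_eq, W]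
    simp only [Matrix.add_mul, Matrix.mul_add, Matrix.smul_mul, Matrix.mul_smul, Matrix.one_mul,
      Matrix.mul_one, mA_mul_mA, mB_mul_mB, mA_mul_mB, mB_mul_mA, mA_mul_mJ, mB_mul_mJ]
    module
  have e0 : θ 0 * (1 / θ 0) = 1 := by field_simp
  have e1 : θ 0 * c1 m₂ θ + θ 1 * (1 / θ 0) + θ 1 * c1 m₂ θ * m₂ = 0 := by
    unfold c1
    rw [show θ 0 * (-θ 1 / (θ 0 * l1 m₂ θ)) + θ 1 * (1 / θ 0)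
      + θ 1 * (-θ 1 / (θ 0 * l1 m₂ θ)) * m₂ = θ 1 / (θ 0 * l1 m₂ θ) *
        (l1 m₂ θ - (θ 0 + m₂ * θ 1)) by field_simp; ring]
    simp [l1]
  have e2 : θ 0 * c2 m₁ θ + θ 2 * (1 / θ 0) + θ 2 * c2 m₁ θ * m₁ = 0 := by
    unfold c2
    rw [show θ 0 * (-θ 2 / (θ 0 * l2 m₁ θ)) + θ 2 * (1 / θ 0)
      + θ 2 * (-θ 2 / (θ 0 * l2 m₁ θ)) * m₁ = θ 2 / (θ 0 * l2 m₁ θ) *
        (l2 m₁ θ - (θ 0 + m₁ * θ 2)) by field_simp; ring]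
    simp [l2]
  have e3 : θ 0 * c3 m₁ m₂ θ + θ 1 * c2 m₁ θ + θ 1 * c3 m₁ m₂ θ * m₂ + θ 2 * c1 m₂ θ
          + θ 2 * c3 m₁ m₂ θ * m₁ = 0 := by
    have : θ 0 * c3 m₁ m₂ θ + θ 1 * c3 m₁ m₂ θ * m₂ + θ 2 * c3 m₁ m₂ θ * m₁
        = c3 m₁ m₂ θ * l3 m₁ m₂ θ := by unfold l3; ring
    have h4 : c3 m₁ m₂ θ * l3 m₁ m₂ θ = θ 1 * θ 2 * (1 / l1 m₂ θ + 1 / l2 m₁ θ) / θ 0 := by
      unfold c3; field_simp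
    have h5 : θ 1 * c2 m₁ θ + θ 2 * c1 m₂ θ
        = - (θ 1 * θ 2 * (1 / l1 m₂ θ + 1 / l2 m₁ θ) / θ 0) := by
      unfold c1 c2; field_simp; ring
    linarith
  rw [key, e0, e1, e2, e3]
  simp

lemma V_inv {θ : Fin 3 → ℝ} (hθ : ∀ k, 0 < θ k) : (V m₁ m₂ θ)⁻¹ = W m₁ m₂ θ :=
  Matrix.inv_eq_right_inv (V_mul_W hθ)

/-- row sums, column sums, total -/
def rs (y : Obs m₁ m₂ → ℝ) (i : Fin m₁) : ℝ := ∑ j, y (i, j)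
def cs (y : Obs m₁ m₂ → ℝ) (j : Fin m₂) : ℝ := ∑ i, y (i, j)
def tot (y : Obs m₁ m₂ → ℝ) : ℝ := ∑ p, y p

lemma tot_eq_rs (y : Obs m₁ m₂ → ℝ) : tot y = ∑ i, rs y i := by
  simp [tot, rs, Fintype.sum_prod_type]
lemma tot_eq_cs (y : Obs m₁ m₂ → ℝ) : tot y = ∑ j, cs y j := by
  rw [tot, Fintype.sum_prod_type, Finset.sum_comm]; rfl

lemma mA_mulVec (y : Obs m₁ m₂ → ℝ) : mA m₁ m₂ *ᵥ y = fun p => rs y p.1 := by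
  ext p
  simp only [Matrix.mulVec, dotProduct, mA, Fintype.sum_prod_type, rs, ite_mul, one_mul, zero_mul]
  rw [Finset.sum_eq_single p.1]
  · simp
  · intro b _ hb
    simp [Ne.symm hb]
  · simp

lemma mB_mulVec (y : Obs m₁ m₂ → ℝ) : mB m₁ m₂ *ᵥ y = fun p => cs y p.2 := by
  ext p
  simp only [Matrix.mulVec, dotProduct, mB, Fintype.sum_prod_type, cs, ite_mul, one_mul, zero_mul]
  simp

lemma mJ_mulVec (y : Obs m₁ m₂ → ℝ) : mJ m₁ m₂ *ᵥ y = fun _ => tot y := by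
  ext p
  simp [Matrix.mulVec, dotProduct, mJ, tot]

lemma W_mulVec (θ : Fin 3 → ℝ) (y : Obs m₁ m₂ → ℝ) (p : Obs m₁ m₂) :
    (W m₁ m₂ θ *ᵥ y) p = (1 / θ 0) * y p + c1 m₂ θ * rs y p.1 + c2 m₁ θ * cs y p.2
      + c3 m₁ m₂ θ * tot y := by
  simp [W, Matrix.add_mulVec, Matrix.smul_mulVec, mA_mulVec, mB_mulVec, mJ_mulVec]

end Q290.Eblup
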