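import Mathlib
import Pool.Agent.Q290.Eblup.Alg

open Matrix MeasureTheory
open scoped Kronecker

namespace Q290.Eblup

variable {m₁ m₂ : ℕ}

/-! ### the determinant -/

/-- the all-ones matrix -/
def aO (n : Type*) : Matrix n n ℝ := fun _ _ => 1

lemma aO_apply {n : Type*} (i j : n) : aO n i j = 1 := rfl

lemma det_one_add_smul_all_ones {n : Type*} [Fintype n] [DecidableEq n] (c : ℝ) :
    (1 + c • aO n).det = 1 + c * Fintype.card n := by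
  have h : (c • aO n) =
      Matrix.replicateCol Unit (fun _ : n => c) * Matrix.replicateRow Unit (fun _ : n => (1 : ℝ)) := by
    ext i j
    simp [Matrix.mul_apply, aO]
  rw [h, Matrix.det_one_add_replicateCol_mul_replicateRow]
  simp [dotProduct, mul_comm]

lemma det_one_add_mA (c : ℝ) : (1 + c • mA m₁ m₂).det = (1 + c * m₂) ^ m₁ := by
  have h : (1 + c • mA m₁ m₂) =
      (1 : Matrix (Fin m₁) (Fin m₁) ℝ) ⊗ₖ (1 + c • aO (Fin m₂)) := by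
    ext p q
    obtain ⟨i, j⟩ := p
    obtain ⟨i', j'⟩ := q
    simp only [Matrix.add_apply, Matrix.smul_apply, mA, Matrix.kroneckerMap_apply,
      Matrix.one_apply, Prod.mk.injEq, smul_eq_mul, aO_apply]
    by_cases h1 : i = i'
    · by_cases h2 : j = j'
      · simp [h1, h2]
      · simp [h1, h2]
    · simp [h1]
  rw [h, Matrix.det_kronecker, det_one_add_smul_all_ones]
  simp

lemma det_one_add_mB (c : ℝ) : (1 + c • mB m₁ m₂).det = (1 + c * m₁) ^ m₂ := by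
  have h : (1 + c • mB m₁ m₂) =
      (1 + c • aO (Fin m₁)) ⊗ₖ (1 : Matrix (Fin m₂) (Fin m₂) ℝ) := by
    ext p q
    obtain ⟨i, j⟩ := p
    obtain ⟨i', j'⟩ := q
    simp only [Matrix.add_apply, Matrix.smul_apply, mB, Matrix.kroneckerMap_apply,
      Matrix.one_apply, Prod.mk.injEq, smul_eq_mul, aO_apply]
    by_cases h1 : i = i'
    · by_cases h2 : j = j'
      · simp [h1, h2]
      · simp [h1, h2]
    · by_cases h2 : j = j'
      · simp [h1, h2]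
      · simp [h1, h2]
  rw [h, Matrix.det_kronecker, det_one_add_smul_all_ones]
  simp

lemma det_one_add_mJ (c : ℝ) : (1 + c • mJ m₁ m₂).det = 1 + c * (m₁ * m₂) := by
  have := det_one_add_smul_all_ones (n := Obs m₁ m₂) c
  rw [show mJ m₁ m₂ = aO (Obs m₁ m₂) from rfl, this]
  simp

lemma V_factor {θ : Fin 3 → ℝ} (hθ : ∀ k, 0 < θ k) : V m₁ m₂ θ =
    θ 0 • ((1 + (θ 1 / θ 0) • mA m₁ m₂) * (1 + (θ 2 / θ 0) • mB m₁ m₂)
      * (1 + (-(θ 1 * θ 2) / (l1 m₂ θ * l2 m₁ θ)) • mJ m₁ m₂)) := by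
  have h0 := (hθ 0).ne'
  have h1 := (l1_pos hθ m₂).ne'
  have h2 := (l2_pos hθ m₁).ne'
  have hAJ : mJ m₁ m₂ * mJ m₁ m₂ = ((m₁ : ℝ) * m₂) • mJ m₁ m₂ := by
    rw [← mA_mul_mB (m₁ := m₁) (m₂ := m₂), Matrix.mul_assoc]
    rw [mA_mul_mB, mB_mul_mJ, Matrix.mul_smul, mA_mul_mJ, smul_smul]
  set g := -(θ 1 * θ 2) / (l1 m₂ θ * l2 m₁ θ) with hg
  have key : (1 + (θ 1 / θ 0) • mA m₁ m₂) * (1 + (θ 2 / θ 0) • mB m₁ m₂) * (1 + g • mJ m₁ m₂)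
      = 1 + (θ 1 / θ 0) • mA m₁ m₂ + (θ 2 / θ 0) • mB m₁ m₂
      + (g + θ 1 / θ 0 * g * m₂ + θ 2 / θ 0 * g * m₁ + θ 1 / θ 0 * (θ 2 / θ 0)
        + θ 1 / θ 0 * (θ 2 / θ 0) * g * (m₁ * m₂)) • mJ m₁ m₂ := by
    simp only [Matrix.add_mul, Matrix.mul_add, Matrix.smul_mul, Matrix.mul_smul, Matrix.one_mul,
      Matrix.mul_one, mA_mul_mB, mA_mul_mJ, mB_mul_mJ, hAJ]
    module
  have e : g + θ 1 / θ 0 * g * m₂ + θ 2 / θ 0 * g * m₁ + θ 1 / θ 0 * (θ 2 / θ 0)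
        + θ 1 / θ 0 * (θ 2 / θ 0) * g * (m₁ * m₂) = 0 := by
    have h3 : g + θ 1 / θ 0 * g * m₂ + θ 2 / θ 0 * g * m₁ + θ 1 / θ 0 * (θ 2 / θ 0) * g * (m₁ * m₂)
        = g * ((l1 m₂ θ * l2 m₁ θ) / (θ 0 * θ 0)) := by
      unfold l1 l2; field_simp; ring
    have h4 : g * ((l1 m₂ θ * l2 m₁ θ) / (θ 0 * θ 0)) = -(θ 1 * θ 2) / (θ 0 * θ 0) := by
      rw [hg]; field_simp
    have h5 : θ 1 / θ 0 * (θ 2 / θ 0) = (θ 1 * θ 2) / (θ 0 * θ 0) := by field_simp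
    have h6 : -(θ 1 * θ 2) / (θ 0 * θ 0) = - ((θ 1 * θ 2) / (θ 0 * θ 0)) := by ring
    linarith
  rw [key, e, V_eq, zero_smul, add_zero, smul_add, smul_add, smul_smul, smul_smul]
  congr 2
  · congr 1; field_simp
  · congr 1; field_simp

lemma log_det_V {θ : Fin 3 → ℝ} (hθ : ∀ k, 0 < θ k) : Real.log (V m₁ m₂ θ).det =
    ((m₁ : ℝ) - 1) * (m₂ - 1) * Real.log (θ 0) + (m₁ - 1) * Real.log (l1 m₂ θ)
      + (m₂ - 1) * Real.log (l2 m₁ θ) + Real.log (l3 m₁ m₂ θ) := by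
  have h0 := hθ 0
  have h1 := l1_pos hθ m₂
  have h2 := l2_pos hθ m₁
  have h3 := l3_pos hθ m₁ m₂
  have e1 : 1 + θ 1 / θ 0 * m₂ = l1 m₂ θ / θ 0 := by unfold l1; field_simp
  have e2 : 1 + θ 2 / θ 0 * m₁ = l2 m₁ θ / θ 0 := by unfold l2; field_simp
  have e3 : 1 + (-(θ 1 * θ 2) / (l1 m₂ θ * l2 m₁ θ)) * (m₁ * m₂) =
      θ 0 * l3 m₁ m₂ θ / (l1 m₂ θ * l2 m₁ θ) := by
    field_simp
    unfold l1 l2 l3
    ring
  rw [V_factor hθ, Matrix.det_smul, Matrix.det_mul, Matrix.det_mul, det_one_add_mA, det_one_add_mB,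
    det_one_add_mJ, e1, e2, e3]
  have hc : Fintype.card (Obs m₁ m₂) = m₁ * m₂ := by simp
  rw [hc, Real.log_mul (by positivity) (by positivity), Real.log_mul (by positivity) (by positivity),
    Real.log_mul (by positivity) (by positivity), Real.log_div (by positivity) (by positivity),
    Real.log_mul (by positivity) (by positivity), Real.log_mul (by positivity) (by positivity),
    Real.log_pow, Real.log_pow, Real.log_pow, Real.log_div (by positivity) (by positivity),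
    Real.log_div (by positivity) (by positivity)]
  push_cast
  ring

/-! ### quadratic forms -/

noncomputable def SSA (y : Obs m₁ m₂ → ℝ) : ℝ := (∑ i, rs y i ^ 2) / m₂ - tot y ^ 2 / (m₁ * m₂)
noncomputable def SSB (y : Obs m₁ m₂ → ℝ) : ℝ := (∑ j, cs y j ^ 2) / m₁ - tot y ^ 2 / (m₁ * m₂)
noncomputable def SSE (y : Obs m₁ m₂ → ℝ) : ℝ :=
  (∑ p, y p ^ 2) - (∑ i, rs y i ^ 2) / m₂ - (∑ j, cs y j ^ 2) / m₁ + tot y ^ 2 / (m₁ * m₂)

lemma dot_rs (x y : Obs m₁ m₂ → ℝ) : ∑ p, x p * rs y p.1 = ∑ i, rs x i * rs y i := by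
  rw [Fintype.sum_prod_type]
  refine Finset.sum_congr rfl fun i _ => ?_
  rw [rs, Finset.sum_mul]

lemma dot_cs (x y : Obs m₁ m₂ → ℝ) : ∑ p, x p * cs y p.2 = ∑ j, cs x j * cs y j := by
  rw [Fintype.sum_prod_type, Finset.sum_comm]
  refine Finset.sum_congr rfl fun i _ => ?_
  rw [cs, Finset.sum_mul]

lemma dot_tot (x y : Obs m₁ m₂ → ℝ) : ∑ p, x p * tot y = tot x * tot y := by
  rw [← Finset.sum_mul]; rfl

lemma dot_W (θ : Fin 3 → ℝ) (x y : Obs m₁ m₂ → ℝ) : x ⬝ᵥ (W m₁ m₂ θ *ᵥ y) =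
    (1 / θ 0) * (∑ p, x p * y p) + c1 m₂ θ * (∑ i, rs x i * rs y i)
      + c2 m₁ θ * (∑ j, cs x j * cs y j) + c3 m₁ m₂ θ * (tot x * tot y) := by
  rw [← dot_rs, ← dot_cs, ← dot_tot]
  simp only [dotProduct, W_mulVec, Finset.mul_sum]
  rw [← Finset.sum_add_distrib, ← Finset.sum_add_distrib, ← Finset.sum_add_distrib]
  refine Finset.sum_congr rfl fun p _ => ?_
  ring

lemma rs_ones (i : Fin m₁) : rs (ones m₁ m₂) i = m₂ := by simp [rs, ones]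
lemma cs_ones (j : Fin m₂) : cs (ones m₁ m₂) j = m₁ := by simp [cs, ones]
lemma tot_ones : tot (ones m₁ m₂) = m₁ * m₂ := by simp [tot, ones]

lemma csum {θ : Fin 3 → ℝ} (hθ : ∀ k, 0 < θ k) :
    1 / θ 0 + m₂ * c1 m₂ θ + m₁ * c2 m₁ θ + m₁ * m₂ * c3 m₁ m₂ θ = 1 / l3 m₁ m₂ θ := by
  have h0 := (hθ 0).ne'
  have h1 := (l1_pos hθ m₂).ne'
  have h2 := (l2_pos hθ m₁).ne'
  have h3 := (l3_pos hθ m₁ m₂).ne'
  unfold c1 c2 c3
  field_simp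
  unfold l1 l2 l3
  ring

lemma ones_W_ones {θ : Fin 3 → ℝ} (hθ : ∀ k, 0 < θ k) :
    ones m₁ m₂ ⬝ᵥ (W m₁ m₂ θ *ᵥ ones m₁ m₂) = m₁ * m₂ / l3 m₁ m₂ θ := by
  rw [dot_W]
  simp only [rs_ones, cs_ones, tot_ones]
  rw [show (m₁ * m₂ / l3 m₁ m₂ θ : ℝ) = m₁ * m₂ * (1 / l3 m₁ m₂ θ) by ring, ← csum hθ]
  simp [ones]
  ring

lemma ones_W_y {θ : Fin 3 → ℝ} (hθ : ∀ k, 0 < θ k) (y : Obs m₁ m₂ → ℝ) :
    ones m₁ m₂ ⬝ᵥ (W m₁ m₂ θ *ᵥ y) = tot y / l3 m₁ m₂ θ := by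
  rw [dot_W]
  simp only [rs_ones, cs_ones, tot_ones]
  rw [show (tot y / l3 m₁ m₂ θ : ℝ) = tot y * (1 / l3 m₁ m₂ θ) by ring, ← csum hθ,
    ← Finset.mul_sum, ← Finset.mul_sum, ← tot_eq_rs, ← tot_eq_cs]
  simp only [ones, one_mul]
  rw [show (∑ p, y p) = tot y from rfl]
  ring

lemma y_W_y (θ : Fin 3 → ℝ) (y : Obs m₁ m₂ → ℝ) :
    y ⬝ᵥ (W m₁ m₂ θ *ᵥ y) = (1 / θ 0) * (∑ p, y p ^ 2) + c1 m₂ θ * (∑ i, rs y i ^ 2)
      + c2 m₁ θ * (∑ j, cs y j ^ 2) + c3 m₁ m₂ θ * tot y ^ 2 := by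
  rw [dot_W]
  simp only [← sq]

lemma reml_eq (hm₁ : 0 < m₁) (hm₂ : 0 < m₂) {θ : Fin 3 → ℝ} (hθ : ∀ k, 0 < θ k)
    (y : Obs m₁ m₂ → ℝ) :
    reml θ y = -(1 / 2) * (Real.log (m₁ * m₂)
      + (((m₁ : ℝ) - 1) * (m₂ - 1) * Real.log (θ 0) + SSE y / θ 0)
      + ((m₁ - 1) * Real.log (l1 m₂ θ) + SSA y / l1 m₂ θ)
      + ((m₂ - 1) * Real.log (l2 m₁ θ) + SSB y / l2 m₁ θ)) := by
  have h0 := (hθ 0).ne'
  have h1 := (l1_pos hθ m₂).ne'
  have h2 := (l2_pos hθ m₁).ne'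
  have h3 := (l3_pos hθ m₁ m₂).ne'
  have hM₁ : (m₁ : ℝ) ≠ 0 := by positivity
  have hM₂ : (m₂ : ℝ) ≠ 0 := by positivity
  rw [reml, V_inv hθ, log_det_V hθ, ones_W_ones hθ, ones_W_y hθ, y_W_y]
  rw [Real.log_div (by positivity) h3]
  have hq : 1 / θ 0 * ∑ p, y p ^ 2 + c1 m₂ θ * ∑ i, rs y i ^ 2 + c2 m₁ θ * ∑ j, cs y j ^ 2
      + c3 m₁ m₂ θ * tot y ^ 2 - (tot y / l3 m₁ m₂ θ) ^ 2 / (m₁ * m₂ / l3 m₁ m₂ θ)
      = SSE y / θ 0 + SSA y / l1 m₂ θ + SSB y / l2 m₁ θ := by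
    unfold SSE SSA SSB
    generalize (∑ p, y p ^ 2) = s0
    generalize (∑ i, rs y i ^ 2) = s1
    generalize (∑ j, cs y j ^ 2) = s2
    generalize tot y = t
    have d1 : c1 m₂ θ = (1 / l1 m₂ θ - 1 / θ 0) / m₂ := by
      unfold c1; field_simp; unfold l1; ring
    have d2 : c2 m₁ θ = (1 / l2 m₁ θ - 1 / θ 0) / m₁ := by
      unfold c2; field_simp; unfold l2; ring
    have d3 : c3 m₁ m₂ θ = (1 / l3 m₁ m₂ θ - 1 / l1 m₂ θ - 1 / l2 m₁ θ + 1 / θ 0) / (m₁ * m₂) := by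
      have := csum (m₁ := m₁) (m₂ := m₂) hθ
      rw [d1, d2] at this
      field_simp at this ⊢
      linarith
    rw [d1, d2, d3]
    field_simp
    ring
  rw [hq]
  ring

/-! ### the BLUP -/

/-- centred row / column sums paired with the coefficients -/
noncomputable def pA (a₁ : Fin m₁ → ℝ) (y : Obs m₁ m₂ → ℝ) : ℝ :=
  ∑ i, a₁ i * (rs y i - m₂ * grand y)
noncomputable def pB (a₂ : Fin m₂ → ℝ) (y : Obs m₁ m₂ → ℝ) : ℝ :=
  ∑ j, a₂ j * (cs y j - m₁ * grand y)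

lemma blup_eq (hm₁ : 0 < m₁) (hm₂ : 0 < m₂) {θ : Fin 3 → ℝ} (hθ : ∀ k, 0 < θ k)
    (a₀ : ℝ) (a₁ : Fin m₁ → ℝ) (a₂ : Fin m₂ → ℝ) (y : Obs m₁ m₂ → ℝ) :
    blup a₀ a₁ a₂ θ y = a₀ * grand y + θ 1 / l1 m₂ θ * pA a₁ y + θ 2 / l2 m₁ θ * pB a₂ y := by
  have h0 := (hθ 0).ne'
  have h1 := (l1_pos hθ m₂).ne'
  have h2 := (l2_pos hθ m₁).ne'
  have hM₁ : (m₁ : ℝ) ≠ 0 := by positivity
  have hM₂ : (m₂ : ℝ) ≠ 0 := by positivity
  set x : Obs m₁ m₂ → ℝ := fun p => y p - grand y with hx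
  have htx : tot x = 0 := by
    simp only [tot, hx, Finset.sum_sub_distrib, grand]
    simp
    field_simp
    ring
  have hrx : ∀ i, rs x i = rs y i - m₂ * grand y := by
    intro i; simp [rs, hx, Finset.sum_sub_distrib]
  have hcx : ∀ j, cs x j = cs y j - m₁ * grand y := by
    intro i; simp [cs, hx, Finset.sum_sub_distrib]
  have hWr : ∀ i, rs (W m₁ m₂ θ *ᵥ x) i = rs x i / l1 m₂ θ := by
    intro i
    have : rs (W m₁ m₂ θ *ᵥ x) i = (1 / θ 0) * rs x i + m₂ * c1 m₂ θ * rs x i + c2 m₁ θ * tot x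
        + m₂ * c3 m₁ m₂ θ * tot x := by
      simp only [rs, W_mulVec, Finset.sum_add_distrib, ← Finset.mul_sum, ← tot_eq_cs]
      simp
      ring
    rw [this, htx]
    unfold c1; field_simp; unfold l1; ring
  have hWc : ∀ j, cs (W m₁ m₂ θ *ᵥ x) j = cs x j / l2 m₁ θ := by
    intro j
    have : cs (W m₁ m₂ θ *ᵥ x) j = (1 / θ 0) * cs x j + m₁ * c2 m₁ θ * cs x j + c1 m₂ θ * tot x
        + m₁ * c3 m₁ m₂ θ * tot x := by
      simp only [cs, W_mulVec, Finset.sum_add_distrib, ← Finset.mul_sum, ← tot_eq_rs]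
      simp
      ring
    rw [this, htx]
    unfold c2; field_simp; unfold l2; ring
  have hZ : ∀ w : Obs m₁ m₂ → ℝ, ((G m₁ m₂ θ * (Z m₁ m₂)ᵀ) *ᵥ w) =
      Sum.elim (fun i => θ 1 * rs w i) (fun j => θ 2 * cs w j) := by
    intro w
    rw [← Matrix.mulVec_mulVec]
    ext k
    rcases k with i | j
    · simp only [G, Matrix.mulVec_diagonal, Sum.elim_inl]
      congr 1
      simp only [Matrix.mulVec, dotProduct, Matrix.transpose_apply, Z, Sum.elim_inl, rs,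
        Fintype.sum_prod_type, ite_mul, one_mul, zero_mul]
      rw [Finset.sum_eq_single i]
      · simp
      · intro b _ hb; simp [hb]
      · simp
    · simp only [G, Matrix.mulVec_diagonal, Sum.elim_inr]
      congr 1
      simp only [Matrix.mulVec, dotProduct, Matrix.transpose_apply, Z, Sum.elim_inr, cs,
        Fintype.sum_prod_type, ite_mul, one_mul, zero_mul]
      simp
  rw [blup, V_inv hθ, ← Matrix.mulVec_mulVec, hZ]
  simp only [dotProduct, Fintype.sum_sum_type, Sum.elim_inl, Sum.elim_inr]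
  rw [pA, pB, Finset.mul_sum, Finset.mul_sum, add_assoc]
  congr 2
  · refine Finset.sum_congr rfl fun i _ => ?_
    rw [hWr, hrx]; ring
  · refine Finset.sum_congr rfl fun i _ => ?_
    rw [hWc, hcx]; ring

end Q290.Eblup
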