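import Mathlib
import Pool.Agent.Q290.Eblup.Closed

open Matrix MeasureTheory

namespace Q290.Eblup

variable {m₁ m₂ : ℕ}

lemma hasDerivAt_upd (θ : Fin 3 → ℝ) (k i : Fin 3) (t : ℝ) :
    HasDerivAt (fun t => Function.update θ k t i) (if i = k then 1 else 0) t := by
  by_cases h : i = k
  · subst h
    have e : (fun t => Function.update θ i t i) = fun t => t := by ext t; simp
    rw [e, if_pos rfl]
    exact hasDerivAt_id' t
  · simpa [h] using hasDerivAt_const t (θ i)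

lemma upd_pos {θ : Fin 3 → ℝ} (hθ : ∀ k, 0 < θ k) (k : Fin 3) {t : ℝ} (ht : 0 < t) :
    ∀ j, 0 < Function.update θ k t j := by
  intro j
  by_cases h : j = k
  · subst h; simpa using ht
  · simpa [h] using hθ j

lemma pd_congr {f g : (Fin 3 → ℝ) → ℝ} (h : ∀ θ : Fin 3 → ℝ, (∀ k, 0 < θ k) → f θ = g θ)
    {θ : Fin 3 → ℝ} (hθ : ∀ k, 0 < θ k) (k : Fin 3) : pd k f θ = pd k g θ := by
  apply Filter.EventuallyEq.deriv_eq
  filter_upwards [lt_mem_nhds (hθ k)] with t ht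
  exact h _ (upd_pos hθ k ht)

/-- `∂λ/∂θ` -/
def Mm (m₁ m₂ : ℕ) : Matrix (Fin 3) (Fin 3) ℝ := !![1, 0, 0; 1, m₂, 0; 1, 0, m₁]

def lam (m₁ m₂ : ℕ) (θ : Fin 3 → ℝ) : Fin 3 → ℝ := ![θ 0, l1 m₂ θ, l2 m₁ θ]

lemma lam_pos {θ : Fin 3 → ℝ} (hθ : ∀ k, 0 < θ k) (j : Fin 3) : 0 < lam m₁ m₂ θ j := by
  fin_cases j
  · exact hθ 0
  · exact l1_pos hθ m₂
  · exact l2_pos hθ m₁

lemma hasDerivAt_lam (θ : Fin 3 → ℝ) (k j : Fin 3) (t : ℝ) :
    HasDerivAt (fun t => lam m₁ m₂ (Function.update θ k t) j) (Mm m₁ m₂ j k) t := by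
  fin_cases j
  · have := hasDerivAt_upd θ k 0 t
    have e : Mm m₁ m₂ 0 k = (if (0 : Fin 3) = k then 1 else 0) := by fin_cases k <;> simp [Mm]
    change HasDerivAt (fun t => Function.update θ k t 0) (Mm m₁ m₂ 0 k) t
    rwa [e]
  · have := (hasDerivAt_upd θ k 0 t).add ((hasDerivAt_upd θ k 1 t).const_mul (m₂ : ℝ))
    have e : Mm m₁ m₂ 1 k = (if (0 : Fin 3) = k then 1 else 0) + m₂ * (if (1 : Fin 3) = k then 1 else 0) := by
      fin_cases k <;> simp [Mm]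
    change HasDerivAt (fun t => Function.update θ k t 0 + m₂ * Function.update θ k t 1) (Mm m₁ m₂ 1 k) t
    rw [e]; exact this
  · have := (hasDerivAt_upd θ k 0 t).add ((hasDerivAt_upd θ k 2 t).const_mul (m₁ : ℝ))
    have e : Mm m₁ m₂ 2 k = (if (0 : Fin 3) = k then 1 else 0) + m₁ * (if (2 : Fin 3) = k then 1 else 0) := by
      fin_cases k <;> simp [Mm]
    change HasDerivAt (fun t => Function.update θ k t 0 + m₁ * Function.update θ k t 2) (Mm m₁ m₂ 2 k) t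
    rw [e]; exact this

/-- degrees of freedom -/
def dof (m₁ m₂ : ℕ) : Fin 3 → ℝ := ![((m₁ : ℝ) - 1) * (m₂ - 1), m₁ - 1, m₂ - 1]

/-- sums of squares -/
noncomputable def SS (y : Obs m₁ m₂ → ℝ) : Fin 3 → ℝ := ![SSE y, SSA y, SSB y]

lemma reml_eq' (hm₁ : 0 < m₁) (hm₂ : 0 < m₂) {θ : Fin 3 → ℝ} (hθ : ∀ k, 0 < θ k)
    (y : Obs m₁ m₂ → ℝ) :
    reml θ y = -(1 / 2) * Real.log (m₁ * m₂) + ∑ j, (-(1 / 2)) * (dof m₁ m₂ j *
      Real.log (lam m₁ m₂ θ j) + SS y j / lam m₁ m₂ θ j) := by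
  rw [reml_eq hm₁ hm₂ hθ]
  simp only [Fin.sum_univ_three, dof, lam, SS, Matrix.cons_val_zero, Matrix.cons_val_one,
    Matrix.cons_val_two, Matrix.head_cons, Matrix.tail_cons]
  ring

lemma hasDerivAt_piece {f : ℝ → ℝ} {f' t : ℝ} (hf : HasDerivAt f f' t) (h0 : f t ≠ 0) (d s : ℝ) :
    HasDerivAt (fun t => (-(1 / 2)) * (d * Real.log (f t) + s / f t))
      (-(1 / 2) * (f' * (d / f t - s / f t ^ 2))) t := by
  have h1 := (hf.log h0).const_mul d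
  have h2 := (hf.inv h0).const_mul s
  have h3 := (h1.add h2).const_mul (-(1 / 2))
  refine (h3.congr_deriv ?_).congr_of_eventuallyEq ?_
  · field_simp
    ring
  · exact Filter.Eventually.of_forall fun x => by simp [div_eq_mul_inv]

lemma pd_reml (hm₁ : 0 < m₁) (hm₂ : 0 < m₂) {θ : Fin 3 → ℝ} (hθ : ∀ k, 0 < θ k)
    (y : Obs m₁ m₂ → ℝ) (k : Fin 3) :
    pd k (fun θ' => reml θ' y) θ = ∑ j, -(1 / 2) * (Mm m₁ m₂ j k *
      (dof m₁ m₂ j / lam m₁ m₂ θ j - SS y j / lam m₁ m₂ θ j ^ 2)) := by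
  rw [pd_congr (fun θ' hθ' => reml_eq' hm₁ hm₂ hθ' y) hθ k, pd]
  apply HasDerivAt.deriv
  have hs : HasDerivAt (fun t => ∑ j, (-(1 / 2)) * (dof m₁ m₂ j *
      Real.log (lam m₁ m₂ (Function.update θ k t) j) + SS y j / lam m₁ m₂ (Function.update θ k t) j))
      (∑ j, -(1 / 2) * (Mm m₁ m₂ j k *
      (dof m₁ m₂ j / lam m₁ m₂ θ j - SS y j / lam m₁ m₂ θ j ^ 2))) (θ k) := by
    refine HasDerivAt.fun_sum fun j _ => ?_
    have := hasDerivAt_piece (hasDerivAt_lam (m₁ := m₁) (m₂ := m₂) θ k j (θ k))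
      (by rw [Function.update_eq_self]; exact (lam_pos hθ j).ne') (dof m₁ m₂ j) (SS y j)
    simpa only [Function.update_eq_self] using this
  simpa using hs.const_add (-(1 / 2) * Real.log (m₁ * m₂))

lemma hasDerivAt_piece2 {f : ℝ → ℝ} {f' t : ℝ} (hf : HasDerivAt f f' t) (h0 : f t ≠ 0)
    (a d s : ℝ) :
    HasDerivAt (fun t => -(1 / 2) * (a * (d / f t - s / f t ^ 2)))
      (-(1 / 2) * (a * f' * (-d / f t ^ 2 + 2 * s / f t ^ 3))) t := by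
  have h1 := (hf.inv h0).const_mul d
  have h2 := ((hf.pow 2).inv (pow_ne_zero 2 h0)).const_mul s
  have h3 := ((h1.sub h2).const_mul a).const_mul (-(1 / 2))
  refine (h3.congr_deriv ?_).congr_of_eventuallyEq ?_
  · simp only [Pi.pow_apply]
    field_simp
    ring
  · exact Filter.Eventually.of_forall fun x => by simp [div_eq_mul_inv]

lemma pd_pd_reml (hm₁ : 0 < m₁) (hm₂ : 0 < m₂) {θ : Fin 3 → ℝ} (hθ : ∀ k, 0 < θ k)
    (y : Obs m₁ m₂ → ℝ) (k l : Fin 3) :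
    pd k (fun θ' => pd l (fun θ'' => reml θ'' y) θ') θ = ∑ j, -(1 / 2) *
      (Mm m₁ m₂ j l * Mm m₁ m₂ j k *
      (-dof m₁ m₂ j / lam m₁ m₂ θ j ^ 2 + 2 * SS y j / lam m₁ m₂ θ j ^ 3)) := by
  rw [pd_congr (fun θ' hθ' => pd_reml hm₁ hm₂ hθ' y l) hθ k, pd]
  apply HasDerivAt.deriv
  refine HasDerivAt.fun_sum fun j _ => ?_
  have := hasDerivAt_piece2 (hasDerivAt_lam (m₁ := m₁) (m₂ := m₂) θ k j (θ k))
    (by rw [Function.update_eq_self]; exact (lam_pos hθ j).ne') (Mm m₁ m₂ j l) (dof m₁ m₂ j) (SS y j)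
  simpa only [Function.update_eq_self] using this

/-- the vector `η` with `h = Mᵀ η` -/
noncomputable def eta (a₁ : Fin m₁ → ℝ) (a₂ : Fin m₂ → ℝ) (θ : Fin 3 → ℝ) (y : Obs m₁ m₂ → ℝ) :
    Fin 3 → ℝ :=
  ![-(pA a₁ y / (m₂ * l1 m₂ θ)) - pB a₂ y / (m₁ * l2 m₁ θ),
    θ 0 * pA a₁ y / (m₂ * l1 m₂ θ ^ 2), θ 0 * pB a₂ y / (m₁ * l2 m₁ θ ^ 2)]

lemma hasDerivAt_frac {f g : ℝ → ℝ} {f' g' t : ℝ} (hf : HasDerivAt f f' t)
    (hg : HasDerivAt g g' t) (h0 : g t ≠ 0) (p : ℝ) :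
    HasDerivAt (fun t => f t / g t * p) ((f' * g t - f t * g') / g t ^ 2 * p) t :=
  (hf.div hg h0).mul_const p

lemma hvec_eq (hm₁ : 0 < m₁) (hm₂ : 0 < m₂) {θ : Fin 3 → ℝ} (hθ : ∀ k, 0 < θ k)
    (a₀ : ℝ) (a₁ : Fin m₁ → ℝ) (a₂ : Fin m₂ → ℝ) (y : Obs m₁ m₂ → ℝ) :
    hvec a₀ a₁ a₂ θ y = (Mm m₁ m₂)ᵀ *ᵥ eta a₁ a₂ θ y := by
  have h0 := (hθ 0).ne'
  have h1 := (l1_pos hθ m₂).ne'
  have h2 := (l2_pos hθ m₁).ne'
  have hM₁ : (m₁ : ℝ) ≠ 0 := by positivity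
  have hM₂ : (m₂ : ℝ) ≠ 0 := by positivity
  ext k
  rw [hvec, pd_congr (fun θ' hθ' => blup_eq hm₁ hm₂ hθ' a₀ a₁ a₂ y) hθ k, pd]
  apply HasDerivAt.deriv
  have hl1 := hasDerivAt_lam (m₁ := m₁) (m₂ := m₂) θ k 1 (θ k)
  have hl2 := hasDerivAt_lam (m₁ := m₁) (m₂ := m₂) θ k 2 (θ k)
  have e1 : ∀ θ', lam m₁ m₂ θ' 1 = l1 m₂ θ' := fun _ => rfl
  have e2 : ∀ θ', lam m₁ m₂ θ' 2 = l2 m₁ θ' := fun _ => rfl
  simp only [e1, e2] at hl1 hl2
  have ha := hasDerivAt_frac (hasDerivAt_upd θ k 1 (θ k)) hl1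
    (by rw [Function.update_eq_self]; exact h1) (pA a₁ y)
  have hb := hasDerivAt_frac (hasDerivAt_upd θ k 2 (θ k)) hl2
    (by rw [Function.update_eq_self]; exact h2) (pB a₂ y)
  simp only [Function.update_eq_self] at ha hb
  have hab := (ha.const_add (a₀ * grand y)).add hb
  refine hab.congr_deriv ?_
  simp only [Matrix.mulVec, dotProduct, Fin.sum_univ_three, Matrix.transpose_apply, eta]
  have q20 : ((2 : Fin 3) = 0) = False := by simp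
  have q21 : ((2 : Fin 3) = 1) = False := by simp
  have q12 : ((1 : Fin 3) = 2) = False := by simp
  have q10 : ((1 : Fin 3) = 0) = False := by simp
  fin_cases k
  · simp only [Mm, Matrix.of_apply, Matrix.cons_val_zero, Matrix.cons_val_one,
      Matrix.cons_val_two, Matrix.head_cons, Matrix.tail_cons,
      Fin.zero_eta, Fin.isValue, q20, q10, if_false]
    norm_num
    field_simp
    unfold l1 l2
    ring
  · simp only [Mm, Matrix.of_apply, Matrix.cons_val_zero, Matrix.cons_val_one,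
      Matrix.cons_val_two, Matrix.head_cons, Matrix.tail_cons,
      Fin.mk_one, Fin.isValue, q21, if_false]
    norm_num
    field_simp
    unfold l1
    ring
  · simp only [Mm, Matrix.of_apply, Matrix.cons_val_zero, Matrix.cons_val_one,
      Matrix.cons_val_two, Matrix.head_cons, Matrix.tail_cons,
      Fin.isValue, Fin.reduceFinMk, q12, if_false]
    norm_num
    field_simp
    unfold l2
    ring

end Q290.Eblup
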