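import Mathlib

/-! Moments of linear forms in independent centred variables. -/

open MeasureTheory ProbabilityTheory

namespace Q290.Eblup

section pw
variable {Ω : Type*} [MeasurableSpace Ω] {P : Measure Ω} [IsProbabilityMeasure P]

/-- measurable with finite eighth moment -/
def L8 (P : Measure Ω) (f : Ω → ℝ) : Prop :=
  Measurable f ∧ Integrable (fun ω => f ω ^ 8) P

lemma abs_pow_le {x : ℝ} {n : ℕ} (hn : n ≤ 8) : |x ^ n| ≤ 1 + x ^ 8 := by
  rw [abs_pow]
  rcases le_total |x| 1 with h | h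
  · have h1 : |x| ^ n ≤ 1 := pow_le_one₀ (abs_nonneg x) h
    have h2 : 0 ≤ x ^ 8 := by positivity
    linarith
  · have h1 : |x| ^ n ≤ |x| ^ 8 := pow_le_pow_right₀ h hn
    have h2 : |x| ^ 8 = x ^ 8 := by rw [← abs_pow]; exact abs_of_nonneg (by positivity)
    linarith

lemma L8.int {f : Ω → ℝ} (hf : L8 P f) {n : ℕ} (hn : n ≤ 8) :
    Integrable (fun ω => f ω ^ n) P := by
  refine Integrable.mono' (g := fun ω => 1 + f ω ^ 8) ((integrable_const 1).add hf.2)
    (hf.1.pow_const n).aestronglyMeasurable ?_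
  filter_upwards with ω
  rw [Real.norm_eq_abs]
  exact abs_pow_le hn

lemma add_pow_eight_le (x y : ℝ) : (x + y) ^ 8 ≤ 128 * (x ^ 8 + y ^ 8) := by
  have := Even.add_pow_le (a := x) (b := y) (n := 8) (by decide)
  norm_num at this
  linarith

lemma add_pow_four_le (x y : ℝ) : (x + y) ^ 4 ≤ 8 * (x ^ 4 + y ^ 4) := by
  have := Even.add_pow_le (a := x) (b := y) (n := 4) (by decide)
  norm_num at this
  linarith

omit [IsProbabilityMeasure P] in
lemma L8.add {f g : Ω → ℝ} (hf : L8 P f) (hg : L8 P g) : L8 P (fun ω => f ω + g ω) := by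
  refine ⟨hf.1.add hg.1, ?_⟩
  refine Integrable.mono' (g := fun ω => 128 * (f ω ^ 8 + g ω ^ 8)) ((hf.2.add hg.2).const_mul _)
    ((hf.1.add hg.1).pow_const 8).aestronglyMeasurable ?_
  filter_upwards with ω
  rw [Real.norm_eq_abs, abs_of_nonneg (by positivity)]
  exact add_pow_eight_le _ _

omit [IsProbabilityMeasure P] in
lemma L8.const_mul {f : Ω → ℝ} (hf : L8 P f) (c : ℝ) : L8 P (fun ω => c * f ω) := by
  refine ⟨hf.1.const_mul c, ?_⟩
  simp only [mul_pow]
  exact hf.2.const_mul _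

lemma L8.const (c : ℝ) : L8 P (fun _ => c) := ⟨measurable_const, integrable_const _⟩

lemma L8.sum {ι : Type*} (s : Finset ι) {f : ι → Ω → ℝ} (hf : ∀ i ∈ s, L8 P (f i)) :
    L8 P (fun ω => ∑ i ∈ s, f i ω) := by
  classical
  induction s using Finset.induction_on with
  | empty => simpa using L8.const (P := P) 0
  | insert a s ha ih =>
    have h1 := ih (fun i hi => hf i (Finset.mem_insert_of_mem hi))
    have h2 := hf a (Finset.mem_insert_self a s)
    have := h2.add h1
    simpa [Finset.sum_insert ha] using this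

omit [IsProbabilityMeasure P] in
lemma mul_integral_of_indep {S Y : Ω → ℝ} (h : IndepFun S Y P) (hS : Measurable S)
    (hY : Measurable Y) (i j : ℕ) :
    ∫ ω, S ω ^ i * Y ω ^ j ∂P = (∫ ω, S ω ^ i ∂P) * ∫ ω, Y ω ^ j ∂P := by
  have h1 : IndepFun (fun ω => S ω ^ i) (fun ω => Y ω ^ j) P :=
    h.comp (measurable_id.pow_const i) (measurable_id.pow_const j)
  exact h1.integral_fun_mul_eq_mul_integral (hS.pow_const i).aestronglyMeasurable
    (hY.pow_const j).aestronglyMeasurable

lemma mul_integrable_of_indep {S Y : Ω → ℝ} (h : IndepFun S Y P) (hS : L8 P S)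
    (hY : L8 P Y) {i j : ℕ} (hi : i ≤ 8) (hj : j ≤ 8) :
    Integrable (fun ω => S ω ^ i * Y ω ^ j) P := by
  have h1 : IndepFun (fun ω => S ω ^ i) (fun ω => Y ω ^ j) P :=
    h.comp (measurable_id.pow_const i) (measurable_id.pow_const j)
  exact h1.integrable_mul (hS.int hi) (hY.int hj)

/-- second and fourth moment of a sum of independent centred variables -/
lemma indep_sum_moments {ι : Type*} [DecidableEq ι] {X : ι → Ω → ℝ} (hind : iIndepFun X P)
    (hX : ∀ i, L8 P (X i)) (h1 : ∀ i, ∫ ω, X i ω ∂P = 0) {c : ι → ℝ} {v : ι → ℝ} {K : ℝ}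
    (h2 : ∀ i, ∫ ω, X i ω ^ 2 ∂P = c i ^ 2 * v i)
    (h4 : ∀ i, ∫ ω, X i ω ^ 4 ∂P ≤ c i ^ 4 * K) (hv : ∀ i, 0 ≤ v i) (hvK : ∀ i, v i ^ 2 ≤ K)
    (hv1 : ∀ i j, v i * v j ≤ K) (s : Finset ι) :
    (∫ ω, (∑ i ∈ s, X i ω) ∂P = 0) ∧
    (∫ ω, (∑ i ∈ s, X i ω) ^ 2 ∂P = ∑ i ∈ s, c i ^ 2 * v i) ∧
    (∫ ω, (∑ i ∈ s, X i ω) ^ 4 ∂P ≤ 3 * K * (∑ i ∈ s, c i ^ 2) ^ 2) := by
  induction s using Finset.induction_on with
  | empty => simp
  | insert a s ha ih =>
    obtain ⟨i1, i2, i4⟩ := ih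
    set S : Ω → ℝ := fun ω => ∑ i ∈ s, X i ω with hS
    have hSL : L8 P S := L8.sum s (fun i _ => hX i)
    have hYL : L8 P (X a) := hX a
    have hindS : IndepFun S (X a) P := by
      have := hind.indepFun_finsetSum_of_notMem (fun i => (hX i).1) ha
      have e : (∑ j ∈ s, X j) = S := by ext ω; simp [hS]
      rwa [e] at this
    have hK : 0 ≤ K := le_trans (sq_nonneg _) (hvK a)
    have key : ∀ ω, (∑ i ∈ insert a s, X i ω) = S ω + X a ω := by
      intro ω; rw [Finset.sum_insert ha, add_comm]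
    simp only [key]
    have iS : ∀ {n : ℕ}, n ≤ 8 → Integrable (fun ω => S ω ^ n) P := fun hn => hSL.int hn
    have iY : ∀ {n : ℕ}, n ≤ 8 → Integrable (fun ω => X a ω ^ n) P := fun hn => hYL.int hn
    have iS1 : Integrable S P := by simpa using iS (n := 1) (by norm_num)
    have iY1 : Integrable (X a) P := by simpa using iY (n := 1) (by norm_num)
    have e11 : ∫ ω, S ω * X a ω ∂P = 0 := by
      have := mul_integral_of_indep hindS hSL.1 hYL.1 1 1
      simp only [pow_one] at this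
      rw [this, h1 a, mul_zero]
    have e31 : ∫ ω, S ω ^ 3 * X a ω ∂P = 0 := by
      have := mul_integral_of_indep hindS hSL.1 hYL.1 3 1
      simp only [pow_one] at this
      rw [this, h1 a, mul_zero]
    have e13 : ∫ ω, S ω * X a ω ^ 3 ∂P = 0 := by
      have := mul_integral_of_indep hindS hSL.1 hYL.1 1 3
      simp only [pow_one] at this
      rw [this, i1, zero_mul]
    have e22 : ∫ ω, S ω ^ 2 * X a ω ^ 2 ∂P = (∑ i ∈ s, c i ^ 2 * v i) * (c a ^ 2 * v a) := by
      rw [mul_integral_of_indep hindS hSL.1 hYL.1 2 2, i2, h2 a]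
    have j11 : Integrable (fun ω => S ω * X a ω) P := by
      simpa using mul_integrable_of_indep hindS hSL hYL (i := 1) (j := 1) (by norm_num) (by norm_num)
    have j31 : Integrable (fun ω => S ω ^ 3 * X a ω) P := by
      simpa using mul_integrable_of_indep hindS hSL hYL (i := 3) (j := 1) (by norm_num) (by norm_num)
    have j13 : Integrable (fun ω => S ω * X a ω ^ 3) P := by
      simpa using mul_integrable_of_indep hindS hSL hYL (i := 1) (j := 3) (by norm_num) (by norm_num)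
    have j22 : Integrable (fun ω => S ω ^ 2 * X a ω ^ 2) P :=
      mul_integrable_of_indep hindS hSL hYL (i := 2) (j := 2) (by norm_num) (by norm_num)
    refine ⟨?_, ?_, ?_⟩
    · rw [integral_add iS1 iY1, i1, h1 a, add_zero]
    · have : ∀ ω, (S ω + X a ω) ^ 2 = S ω ^ 2 + 2 * (S ω * X a ω) + X a ω ^ 2 := fun ω => by ring
      simp only [this]
      have a2 : Integrable (fun ω => S ω ^ 2) P := iS (by norm_num)
      have b2 : Integrable (fun ω => X a ω ^ 2) P := iY (by norm_num)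
      have k1 : Integrable (fun ω => S ω ^ 2 + 2 * (S ω * X a ω)) P := a2.add (j11.const_mul 2)
      rw [integral_add k1 b2, integral_add a2 (j11.const_mul 2), integral_const_mul, e11, i2, h2 a,
        Finset.sum_insert ha]
      ring
    · have : ∀ ω, (S ω + X a ω) ^ 4 = S ω ^ 4 + 4 * (S ω ^ 3 * X a ω)
          + 6 * (S ω ^ 2 * X a ω ^ 2) + 4 * (S ω * X a ω ^ 3) + X a ω ^ 4 := fun ω => by ring
      simp only [this]
      have a4 : Integrable (fun ω => S ω ^ 4) P := iS (by norm_num)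
      have b4 : Integrable (fun ω => X a ω ^ 4) P := iY (by norm_num)
      have k1 : Integrable (fun ω => S ω ^ 4 + 4 * (S ω ^ 3 * X a ω)) P := a4.add (j31.const_mul 4)
      have k2 : Integrable (fun ω => S ω ^ 4 + 4 * (S ω ^ 3 * X a ω)
          + 6 * (S ω ^ 2 * X a ω ^ 2)) P := k1.add (j22.const_mul 6)
      have k3 : Integrable (fun ω => S ω ^ 4 + 4 * (S ω ^ 3 * X a ω)
          + 6 * (S ω ^ 2 * X a ω ^ 2) + 4 * (S ω * X a ω ^ 3)) P := k2.add (j13.const_mul 4)
      rw [integral_add k3 b4, integral_add k2 (j13.const_mul 4),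
        integral_add k1 (j22.const_mul 6),
        integral_add a4 (j31.const_mul 4), integral_const_mul, integral_const_mul,
        integral_const_mul, e31, e13, e22, Finset.sum_insert ha]
      have hcross : (∑ i ∈ s, c i ^ 2 * v i) * (c a ^ 2 * v a) ≤ K * (∑ i ∈ s, c i ^ 2) * c a ^ 2 := by
        rw [Finset.sum_mul, Finset.mul_sum, Finset.sum_mul]
        refine Finset.sum_le_sum fun i _ => ?_
        have := hv1 i a
        have hp : 0 ≤ c i ^ 2 * c a ^ 2 := by positivity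
        nlinarith [mul_le_mul_of_nonneg_left this hp]
      have h4a := h4 a
      have hp4 : c a ^ 4 * K ≤ 3 * K * (c a ^ 2) ^ 2 := by
        have : 0 ≤ K * c a ^ 4 := by positivity
        nlinarith
      nlinarith [hcross, i4, h4a, hp4]

end pw

section prod
variable {κ : Type*} [Fintype κ] {ν : κ → Measure ℝ} [∀ k, IsProbabilityMeasure (ν k)]

lemma L8_eval (h8 : ∀ k, Integrable (fun x : ℝ => x ^ 8) (ν k)) (k : κ) :
    L8 (Measure.pi ν) (fun ω => ω k) := by
  refine ⟨measurable_pi_apply k, ?_⟩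
  exact integrable_comp_eval (μ := ν) (i := k) (f := fun x : ℝ => x ^ 8) (h8 k)

lemma integral_eval_pow (k : κ) (n : ℕ) :
    ∫ ω : κ → ℝ, ω k ^ n ∂(Measure.pi ν) = ∫ x, x ^ n ∂(ν k) :=
  integral_comp_eval (μ := ν) (i := k) (f := fun x : ℝ => x ^ n)
    (measurable_id.pow_const n).aestronglyMeasurable

/-- linear forms: second and fourth moments -/
lemma linear_form (h8 : ∀ k, Integrable (fun x : ℝ => x ^ 8) (ν k))
    (h1 : ∀ k, ∫ x, x ∂(ν k) = 0) {v : κ → ℝ} {K : ℝ} (h2 : ∀ k, ∫ x, x ^ 2 ∂(ν k) = v k)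
    (h4 : ∀ k, ∫ x, x ^ 4 ∂(ν k) ≤ K) (hvK : ∀ k, v k ^ 2 ≤ K) (c : κ → ℝ) :
    (∫ ω, (∑ k, c k * ω k) ∂(Measure.pi ν) = 0) ∧
    (∫ ω, (∑ k, c k * ω k) ^ 2 ∂(Measure.pi ν) = ∑ k, c k ^ 2 * v k) ∧
    (∫ ω, (∑ k, c k * ω k) ^ 4 ∂(Measure.pi ν) ≤ 3 * K * (∑ k, c k ^ 2) ^ 2) := by
  classical
  have hind : iIndepFun (fun k (ω : κ → ℝ) => c k * ω k) (Measure.pi ν) := by
    have := iIndepFun_pi (μ := ν) (X := fun k (x : ℝ) => c k * x) (fun k => by fun_prop)
    exact this
  have hv : ∀ k, 0 ≤ v k := fun k => by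
    rw [← h2 k]; exact integral_nonneg fun x => by positivity
  refine indep_sum_moments hind (fun k => (L8_eval h8 k).const_mul (c k)) ?_ ?_ ?_ hv hvK ?_
    Finset.univ
  · intro k
    rw [integral_const_mul]
    have := integral_eval_pow (ν := ν) k 1
    simp only [pow_one] at this
    rw [this, h1 k, mul_zero]
  · intro k
    simp only [mul_pow]
    rw [integral_const_mul, integral_eval_pow, h2]
  · intro k
    simp only [mul_pow]
    rw [integral_const_mul, integral_eval_pow]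
    exact mul_le_mul_of_nonneg_left (h4 k) (by positivity)
  · intro i j
    have a := hvK i
    have b := hvK j
    nlinarith [sq_nonneg (v i - v j)]

end prod

end Q290.Eblup
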