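import Mathlib
import Pool.Agent.Q290.Eblup.Der
import Pool.Agent.Q290.Eblup.Mom

open Matrix MeasureTheory ProbabilityTheory

namespace Q290.Eblup

variable {m₁ m₂ : ℕ}

lemma quad_inv {M : Matrix (Fin 3) (Fin 3) ℝ} {D : Fin 3 → ℝ} (hM : M.det ≠ 0)
    (hD : ∀ j, D j ≠ 0) (η β : Fin 3 → ℝ) :
    (Mᵀ *ᵥ η) ⬝ᵥ ((Mᵀ * Matrix.diagonal D * M)⁻¹ *ᵥ (Mᵀ *ᵥ β)) = ∑ j, η j * (β j / D j) := by
  set A := Mᵀ * Matrix.diagonal D * M with hA
  have hMu : IsUnit M.det := isUnit_iff_ne_zero.mpr hM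
  have hAu : IsUnit A.det := by
    rw [isUnit_iff_ne_zero, hA, Matrix.det_mul, Matrix.det_mul, Matrix.det_transpose,
      Matrix.det_diagonal]
    exact mul_ne_zero (mul_ne_zero hM (Finset.prod_ne_zero_iff.mpr fun j _ => hD j)) hM
  set z : Fin 3 → ℝ := fun j => β j / D j with hz
  have hx : A *ᵥ (M⁻¹ *ᵥ z) = Mᵀ *ᵥ β := by
    rw [hA, ← Matrix.mulVec_mulVec, Matrix.mulVec_mulVec z M, Matrix.mul_nonsing_inv M hMu,
      Matrix.one_mulVec, ← Matrix.mulVec_mulVec]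
    congr 1
    ext j
    rw [Matrix.mulVec_diagonal, hz]
    field_simp [hD j]
  rw [← hx, Matrix.mulVec_mulVec, Matrix.nonsing_inv_mul A hAu, Matrix.one_mulVec,
    Matrix.dotProduct_mulVec, ← Matrix.mulVec_transpose, Matrix.mulVec_mulVec]
  rw [← Matrix.transpose_mul, Matrix.mul_nonsing_inv M hMu, Matrix.transpose_one,
    Matrix.one_mulVec]
  rfl

section exp
variable {F : Fin 3 → Measure ℝ} {θ κ : Fin 3 → ℝ}

lemma lawFam_prob (hF : Admissible F θ κ) (k : Eff m₁ m₂ ⊕ Obs m₁ m₂) :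
    IsProbabilityMeasure (lawFam m₁ m₂ F k) := by
  rcases k with (i | j) | p
  · exact hF.prob 1
  · exact hF.prob 2
  · exact hF.prob 0

/-- the variances of the coordinates -/
def vv (m₁ m₂ : ℕ) (θ : Fin 3 → ℝ) : Eff m₁ m₂ ⊕ Obs m₁ m₂ → ℝ :=
  Sum.elim (Sum.elim (fun _ => θ 1) (fun _ => θ 2)) (fun _ => θ 0)

/-- a bound for the fourth moments and the squared variances -/
noncomputable def KK (θ κ : Fin 3 → ℝ) : ℝ := ∑ k, (|κ k| + θ k ^ 2)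

lemma KK_nonneg : 0 ≤ KK θ κ := Finset.sum_nonneg fun k _ => by positivity

lemma le_KK (k : Fin 3) : |κ k| + θ k ^ 2 ≤ KK θ κ :=
  Finset.single_le_sum (f := fun k => |κ k| + θ k ^ 2) (fun k _ => by positivity) (Finset.mem_univ k)

lemma form_moments (hF : Admissible F θ κ) (c : Eff m₁ m₂ ⊕ Obs m₁ m₂ → ℝ) :
    (∫ ω, (∑ k, c k * ω k) ∂(joint m₁ m₂ F) = 0) ∧
    (∫ ω, (∑ k, c k * ω k) ^ 2 ∂(joint m₁ m₂ F) = ∑ k, c k ^ 2 * vv m₁ m₂ θ k) ∧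
    (∫ ω, (∑ k, c k * ω k) ^ 4 ∂(joint m₁ m₂ F) ≤ 3 * KK θ κ * (∑ k, c k ^ 2) ^ 2) := by
  have := lawFam_prob (m₁ := m₁) (m₂ := m₂) hF
  refine linear_form (ν := lawFam m₁ m₂ F) (v := vv m₁ m₂ θ) (K := KK θ κ) ?_ ?_ ?_ ?_ ?_ c
  · rintro ((i | j) | p)
    · exact hF.eighth 1
    · exact hF.eighth 2
    · exact hF.eighth 0
  · rintro ((i | j) | p)
    · exact hF.mean 1
    · exact hF.mean 2
    · exact hF.mean 0
  · rintro ((i | j) | p)
    · exact hF.var 1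
    · exact hF.var 2
    · exact hF.var 0
  · have h : ∀ k, κ k ≤ KK θ κ := fun k => by
      have := le_KK (θ := θ) (κ := κ) k
      have h1 := le_abs_self (κ k)
      have h2 : 0 ≤ θ k ^ 2 := by positivity
      linarith
    rintro ((i | j) | p)
    · exact (hF.kurt 1).le.trans (h 1)
    · exact (hF.kurt 2).le.trans (h 2)
    · exact (hF.kurt 0).le.trans (h 0)
  · have h : ∀ k, θ k ^ 2 ≤ KK θ κ := fun k => by
      have := le_KK (θ := θ) (κ := κ) k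
      have h1 := abs_nonneg (κ k)
      linarith
    rintro ((i | j) | p)
    · exact h 1
    · exact h 2
    · exact h 0

lemma coord_L8 (hF : Admissible F θ κ) (k : Eff m₁ m₂ ⊕ Obs m₁ m₂) :
    L8 (joint m₁ m₂ F) (fun ω => ω k) := by
  have := lawFam_prob (m₁ := m₁) (m₂ := m₂) hF
  refine L8_eval (ν := lawFam m₁ m₂ F) ?_ k
  rintro ((i | j) | p)
  · exact hF.eighth 1
  · exact hF.eighth 2
  · exact hF.eighth 0

lemma joint_prob (hF : Admissible F θ κ) : IsProbabilityMeasure (joint m₁ m₂ F) := by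
  have := lawFam_prob (m₁ := m₁) (m₂ := m₂) hF
  unfold joint
  infer_instance

lemma form_L8 (hF : Admissible F θ κ) (a : ℝ) (c : Eff m₁ m₂ ⊕ Obs m₁ m₂ → ℝ) :
    L8 (joint m₁ m₂ F) (fun ω => a + ∑ k, c k * ω k) := by
  have := joint_prob (m₁ := m₁) (m₂ := m₂) hF
  exact (L8.const a).add (L8.sum Finset.univ fun k _ => (coord_L8 hF k).const_mul (c k))

lemma form_sq (hF : Admissible F θ κ) (a : ℝ) (c : Eff m₁ m₂ ⊕ Obs m₁ m₂ → ℝ) :
    ∫ ω, (a + ∑ k, c k * ω k) ^ 2 ∂(joint m₁ m₂ F) = a ^ 2 + ∑ k, c k ^ 2 * vv m₁ m₂ θ k := by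
  have := joint_prob (m₁ := m₁) (m₂ := m₂) hF
  obtain ⟨h1, h2, -⟩ := form_moments (m₁ := m₁) (m₂ := m₂) hF c
  have hL := L8.sum (P := joint m₁ m₂ F) Finset.univ (fun k _ => (coord_L8 hF k).const_mul (c k))
  have i1 : Integrable (fun ω => ∑ k, c k * ω k) (joint m₁ m₂ F) := by
    simpa using hL.int (n := 1) (by norm_num)
  have i2 : Integrable (fun ω => (∑ k, c k * ω k) ^ 2) (joint m₁ m₂ F) := hL.int (by norm_num)
  have e : ∀ ω : Eff m₁ m₂ ⊕ Obs m₁ m₂ → ℝ, (a + ∑ k, c k * ω k) ^ 2 =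
      a ^ 2 + (2 * a) * (∑ k, c k * ω k) + (∑ k, c k * ω k) ^ 2 := fun ω => by ring
  simp only [e]
  have k0 : Integrable (fun _ : Eff m₁ m₂ ⊕ Obs m₁ m₂ → ℝ => a ^ 2) (joint m₁ m₂ F) :=
    integrable_const _
  have k1 : Integrable (fun ω : Eff m₁ m₂ ⊕ Obs m₁ m₂ → ℝ => a ^ 2 + (2 * a) * (∑ k, c k * ω k))
      (joint m₁ m₂ F) := k0.add (i1.const_mul _)
  rw [integral_add k1 i2, integral_add k0 (i1.const_mul _), integral_const_mul, h1, h2]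
  simp

/-! coefficients of row sums, column sums, totals and observations -/

def cR (i : Fin m₁) : Eff m₁ m₂ ⊕ Obs m₁ m₂ → ℝ :=
  Sum.elim (Sum.elim (fun i' => if i' = i then (m₂ : ℝ) else 0) (fun _ => 1))
    (fun p => if p.1 = i then 1 else 0)
def cC (j : Fin m₂) : Eff m₁ m₂ ⊕ Obs m₁ m₂ → ℝ :=
  Sum.elim (Sum.elim (fun _ => 1) (fun j' => if j' = j then (m₁ : ℝ) else 0))
    (fun p => if p.2 = j then 1 else 0)
def cT : Eff m₁ m₂ ⊕ Obs m₁ m₂ → ℝ :=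
  Sum.elim (Sum.elim (fun _ => (m₂ : ℝ)) (fun _ => (m₁ : ℝ))) (fun _ => 1)
def cO (p : Obs m₁ m₂) : Eff m₁ m₂ ⊕ Obs m₁ m₂ → ℝ :=
  Sum.elim (Sum.elim (fun i' => if i' = p.1 then (1 : ℝ) else 0) (fun j' => if j' = p.2 then 1 else 0))
    (fun q => if q = p then 1 else 0)

lemma obs_form (μ : ℝ) (ω : Eff m₁ m₂ ⊕ Obs m₁ m₂ → ℝ) (p : Obs m₁ m₂) :
    obs μ ω p = μ + ∑ k, cO p k * ω k := by
  simp only [obs, cO, Fintype.sum_sum_type, Sum.elim_inl, Sum.elim_inr, ite_mul, one_mul, zero_mul,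
    Finset.sum_ite_eq', Finset.mem_univ, if_true]
  ring

lemma rs_form (μ : ℝ) (ω : Eff m₁ m₂ ⊕ Obs m₁ m₂ → ℝ) (i : Fin m₁) :
    rs (obs μ ω) i = m₂ * μ + ∑ k, cR i k * ω k := by
  simp only [rs, obs, cR, Fintype.sum_sum_type, Sum.elim_inl, Sum.elim_inr, ite_mul, one_mul,
    zero_mul, Finset.sum_ite_eq', Finset.mem_univ, if_true, Finset.sum_add_distrib,
    Finset.sum_const, Finset.card_univ, Fintype.card_fin, nsmul_eq_mul, Fintype.sum_prod_type]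
  have : (∑ x, ∑ y, if x = i then ω (Sum.inr (x, y)) else 0) = ∑ y, ω (Sum.inr (i, y)) := by
    rw [Finset.sum_eq_single i]
    · simp
    · intro b _ hb; simp [hb]
    · simp
  rw [this]
  ring

lemma cs_form (μ : ℝ) (ω : Eff m₁ m₂ ⊕ Obs m₁ m₂ → ℝ) (j : Fin m₂) :
    cs (obs μ ω) j = m₁ * μ + ∑ k, cC j k * ω k := by
  simp only [cs, obs, cC, Fintype.sum_sum_type, Sum.elim_inl, Sum.elim_inr, ite_mul, one_mul,
    zero_mul, Finset.sum_ite_eq', Finset.mem_univ, if_true, Finset.sum_add_distrib,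
    Finset.sum_const, Finset.card_univ, Fintype.card_fin, nsmul_eq_mul, Fintype.sum_prod_type]
  ring

lemma tot_form (μ : ℝ) (ω : Eff m₁ m₂ ⊕ Obs m₁ m₂ → ℝ) :
    tot (obs μ ω) = m₁ * m₂ * μ + ∑ k, cT k * ω k := by
  simp only [tot, obs, cT, Fintype.sum_sum_type, Sum.elim_inl, Sum.elim_inr, one_mul,
    Finset.sum_add_distrib, Finset.sum_const, Finset.card_univ, Fintype.card_prod,
    Fintype.card_fin, nsmul_eq_mul, Fintype.sum_prod_type, ← Finset.mul_sum, Nat.cast_mul]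
  ring

lemma sum_cO (p : Obs m₁ m₂) : ∑ k, cO p k ^ 2 * vv m₁ m₂ θ k = θ 1 + θ 2 + θ 0 := by
  simp [cO, vv, Fintype.sum_sum_type, ite_pow]

lemma sum_cR (i : Fin m₁) : ∑ k, cR i k ^ 2 * vv m₁ m₂ θ k =
    m₂ ^ 2 * θ 1 + m₂ * θ 2 + m₂ * θ 0 := by
  simp only [cR, vv, Fintype.sum_sum_type, Sum.elim_inl, Sum.elim_inr, ite_pow, ite_mul, one_pow,
    one_mul, ne_eq, OfNat.ofNat_ne_zero, not_false_eq_true, zero_pow, zero_mul,
    Finset.sum_ite_eq', Finset.mem_univ, if_true, Fintype.sum_prod_type, Finset.sum_const,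
    Finset.card_univ, Fintype.card_fin, nsmul_eq_mul]
  rw [Finset.sum_comm]
  simp

lemma sum_cC (j : Fin m₂) : ∑ k, cC j k ^ 2 * vv m₁ m₂ θ k =
    m₁ * θ 1 + m₁ ^ 2 * θ 2 + m₁ * θ 0 := by
  simp only [cC, vv, Fintype.sum_sum_type, Sum.elim_inl, Sum.elim_inr, ite_pow, ite_mul, one_pow,
    one_mul, ne_eq, OfNat.ofNat_ne_zero, not_false_eq_true, zero_pow, zero_mul,
    Finset.sum_ite_eq', Finset.mem_univ, if_true, Fintype.sum_prod_type, Finset.sum_const,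
    Finset.card_univ, Fintype.card_fin, nsmul_eq_mul]

lemma sum_cT : ∑ k, cT k ^ 2 * vv m₁ m₂ θ k =
    m₁ * m₂ ^ 2 * θ 1 + m₁ ^ 2 * m₂ * θ 2 + m₁ * m₂ * θ 0 := by
  simp only [cT, vv, Fintype.sum_sum_type, Sum.elim_inl, Sum.elim_inr, one_pow,
    one_mul, Finset.sum_const, Finset.card_univ, Fintype.card_prod,
    Fintype.card_fin, nsmul_eq_mul, Nat.cast_mul]
  ring

end exp

end Q290.Eblup
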