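import Mathlib
import Pool.Agent.Q290.Eblup.Exp

open Matrix MeasureTheory ProbabilityTheory

namespace Q290.Eblup

variable {m₁ m₂ : ℕ} {F : Fin 3 → Measure ℝ} {θ κ : Fin 3 → ℝ}

lemma obs_L8 (hF : Admissible F θ κ) (μ : ℝ) (p : Obs m₁ m₂) :
    L8 (joint m₁ m₂ F) (fun ω => obs μ ω p) := by
  simp only [obs_form]; exact form_L8 hF _ _
lemma rs_L8 (hF : Admissible F θ κ) (μ : ℝ) (i : Fin m₁) :
    L8 (joint m₁ m₂ F) (fun ω => rs (obs μ ω) i) := by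
  simp only [rs_form]; exact form_L8 hF _ _
lemma cs_L8 (hF : Admissible F θ κ) (μ : ℝ) (j : Fin m₂) :
    L8 (joint m₁ m₂ F) (fun ω => cs (obs μ ω) j) := by
  simp only [cs_form]; exact form_L8 hF _ _
lemma tot_L8 (hF : Admissible F θ κ) (μ : ℝ) :
    L8 (joint m₁ m₂ F) (fun ω => tot (obs μ ω)) := by
  simp only [tot_form]; exact form_L8 hF _ _

lemma E_obs (hF : Admissible F θ κ) (μ : ℝ) (p : Obs m₁ m₂) :
    ∫ ω, obs μ ω p ^ 2 ∂(joint m₁ m₂ F) = μ ^ 2 + θ 0 + θ 1 + θ 2 := by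
  simp only [obs_form]
  rw [form_sq hF, sum_cO]; ring
lemma E_rs (hF : Admissible F θ κ) (μ : ℝ) (i : Fin m₁) :
    ∫ ω, rs (obs μ ω) i ^ 2 ∂(joint m₁ m₂ F) =
      m₂ ^ 2 * μ ^ 2 + m₂ ^ 2 * θ 1 + m₂ * θ 2 + m₂ * θ 0 := by
  simp only [rs_form]
  rw [form_sq hF, sum_cR]; ring
lemma E_cs (hF : Admissible F θ κ) (μ : ℝ) (j : Fin m₂) :
    ∫ ω, cs (obs μ ω) j ^ 2 ∂(joint m₁ m₂ F) =
      m₁ ^ 2 * μ ^ 2 + m₁ * θ 1 + m₁ ^ 2 * θ 2 + m₁ * θ 0 := by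
  simp only [cs_form]
  rw [form_sq hF, sum_cC]; ring
lemma E_tot (hF : Admissible F θ κ) (μ : ℝ) :
    ∫ ω, tot (obs μ ω) ^ 2 ∂(joint m₁ m₂ F) =
      (m₁ * m₂ * μ) ^ 2 + m₁ * m₂ ^ 2 * θ 1 + m₁ ^ 2 * m₂ * θ 2 + m₁ * m₂ * θ 0 := by
  simp only [tot_form]
  rw [form_sq hF, sum_cT]; ring

section ints
variable (hF : Admissible F θ κ) (μ : ℝ)
include hF

lemma int_q : Integrable (fun ω => ∑ p, obs μ ω p ^ 2) (joint m₁ m₂ F) := by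
  have := joint_prob (m₁ := m₁) (m₂ := m₂) hF
  exact integrable_finsetSum _ fun p _ => (obs_L8 hF μ p).int (by norm_num)
lemma int_r : Integrable (fun ω => ∑ i, rs (obs μ ω) i ^ 2) (joint m₁ m₂ F) := by
  have := joint_prob (m₁ := m₁) (m₂ := m₂) hF
  exact integrable_finsetSum _ fun p _ => (rs_L8 hF μ p).int (by norm_num)
lemma int_c : Integrable (fun ω => ∑ j, cs (obs μ ω) j ^ 2) (joint m₁ m₂ F) := by
  have := joint_prob (m₁ := m₁) (m₂ := m₂) hF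
  exact integrable_finsetSum _ fun p _ => (cs_L8 hF μ p).int (by norm_num)
lemma int_t : Integrable (fun ω => tot (obs μ ω) ^ 2) (joint m₁ m₂ F) := by
  have := joint_prob (m₁ := m₁) (m₂ := m₂) hF
  exact (tot_L8 hF μ).int (by norm_num)

lemma Eq_q : ∫ ω, (∑ p, obs μ ω p ^ 2) ∂(joint m₁ m₂ F) =
    m₁ * m₂ * (μ ^ 2 + θ 0 + θ 1 + θ 2) := by
  have := joint_prob (m₁ := m₁) (m₂ := m₂) hF
  rw [integral_finsetSum _ fun p _ => (obs_L8 hF μ p).int (by norm_num)]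
  simp only [E_obs hF]
  simp
  ring
lemma Eq_r : ∫ ω, (∑ i, rs (obs μ ω) i ^ 2) ∂(joint m₁ m₂ F) =
    m₁ * (m₂ ^ 2 * μ ^ 2 + m₂ ^ 2 * θ 1 + m₂ * θ 2 + m₂ * θ 0) := by
  have := joint_prob (m₁ := m₁) (m₂ := m₂) hF
  rw [integral_finsetSum _ fun p _ => (rs_L8 hF μ p).int (by norm_num)]
  simp only [E_rs hF]
  simp
  ring
lemma Eq_c : ∫ ω, (∑ j, cs (obs μ ω) j ^ 2) ∂(joint m₁ m₂ F) =
    m₂ * (m₁ ^ 2 * μ ^ 2 + m₁ * θ 1 + m₁ ^ 2 * θ 2 + m₁ * θ 0) := by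
  have := joint_prob (m₁ := m₁) (m₂ := m₂) hF
  rw [integral_finsetSum _ fun p _ => (cs_L8 hF μ p).int (by norm_num)]
  simp only [E_cs hF]
  simp
  ring

lemma int_SS (j : Fin 3) : Integrable (fun ω => SS (obs μ ω) j) (joint m₁ m₂ F) := by
  have h1 := int_q (m₁ := m₁) (m₂ := m₂) hF μ
  have h2 := (int_r (m₁ := m₁) (m₂ := m₂) hF μ).div_const (m₂ : ℝ)
  have h3 := (int_c (m₁ := m₁) (m₂ := m₂) hF μ).div_const (m₁ : ℝ)
  have h4 := (int_t (m₁ := m₁) (m₂ := m₂) hF μ).div_const (m₁ * m₂ : ℝ)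
  fin_cases j
  · exact ((h1.sub h2).sub h3).add h4
  · exact h2.sub h4
  · exact h3.sub h4

lemma E_SS (hm₁ : 0 < m₁) (hm₂ : 0 < m₂) (j : Fin 3) :
    ∫ ω, SS (obs μ ω) j ∂(joint m₁ m₂ F) = dof m₁ m₂ j * lam m₁ m₂ θ j := by
  have h1 := int_q (m₁ := m₁) (m₂ := m₂) hF μ
  have h2 := (int_r (m₁ := m₁) (m₂ := m₂) hF μ).div_const (m₂ : ℝ)
  have h3 := (int_c (m₁ := m₁) (m₂ := m₂) hF μ).div_const (m₁ : ℝ)
  have h4 := (int_t (m₁ := m₁) (m₂ := m₂) hF μ).div_const (m₁ * m₂ : ℝ)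
  have hM₁ : (m₁ : ℝ) ≠ 0 := by positivity
  have hM₂ : (m₂ : ℝ) ≠ 0 := by positivity
  fin_cases j
  · have h12 : Integrable (fun ω => (∑ p, obs μ ω p ^ 2) - (∑ i, rs (obs μ ω) i ^ 2) / m₂)
      (joint m₁ m₂ F) := h1.sub h2
    have h123 : Integrable (fun ω => (∑ p, obs μ ω p ^ 2) - (∑ i, rs (obs μ ω) i ^ 2) / m₂
      - (∑ j, cs (obs μ ω) j ^ 2) / m₁) (joint m₁ m₂ F) := h12.sub h3
    change ∫ ω, ((∑ p, obs μ ω p ^ 2) - (∑ i, rs (obs μ ω) i ^ 2) / m₂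
      - (∑ j, cs (obs μ ω) j ^ 2) / m₁ + tot (obs μ ω) ^ 2 / (m₁ * m₂)) ∂(joint m₁ m₂ F)
      = ((m₁ : ℝ) - 1) * (m₂ - 1) * θ 0
    rw [integral_add h123 h4, integral_sub h12 h3, integral_sub h1 h2, integral_div, integral_div,
      integral_div, Eq_q hF, Eq_r hF, Eq_c hF, E_tot hF]
    field_simp
    ring
  · change ∫ ω, ((∑ i, rs (obs μ ω) i ^ 2) / m₂ - tot (obs μ ω) ^ 2 / (m₁ * m₂)) ∂(joint m₁ m₂ F)
      = ((m₁ : ℝ) - 1) * l1 m₂ θ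
    rw [integral_sub h2 h4, integral_div, integral_div, Eq_r hF, E_tot hF]
    unfold l1
    field_simp
    ring
  · change ∫ ω, ((∑ j, cs (obs μ ω) j ^ 2) / m₁ - tot (obs μ ω) ^ 2 / (m₁ * m₂)) ∂(joint m₁ m₂ F)
      = ((m₂ : ℝ) - 1) * l2 m₁ θ
    rw [integral_sub h3 h4, integral_div, integral_div, Eq_c hF, E_tot hF]
    unfold l2
    field_simp
    ring

/-- the expected Hessian of the restricted log-likelihood -/
lemma Amat_eq (hm₁ : 0 < m₁) (hm₂ : 0 < m₂) : Amat m₁ m₂ F μ θ =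
    (Mm m₁ m₂)ᵀ * Matrix.diagonal (fun j => -dof m₁ m₂ j / (2 * lam m₁ m₂ θ j ^ 2)) * Mm m₁ m₂ := by
  have := joint_prob (m₁ := m₁) (m₂ := m₂) hF
  have hl : ∀ j, lam m₁ m₂ θ j ≠ 0 := fun j => (lam_pos hF.pos j).ne'
  ext k l
  simp only [Amat, pd_pd_reml hm₁ hm₂ hF.pos]
  have hi : ∀ j, Integrable (fun ω => -(1 / 2) * (Mm m₁ m₂ j l * Mm m₁ m₂ j k *
      (-dof m₁ m₂ j / lam m₁ m₂ θ j ^ 2 + 2 * SS (obs μ ω) j / lam m₁ m₂ θ j ^ 3)))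
      (joint m₁ m₂ F) := fun j =>
    (((integrable_const _).add (((int_SS hF μ j).const_mul 2).div_const _)).const_mul _).const_mul _
  rw [integral_finsetSum _ fun j _ => hi j]
  have hj : ∀ j, ∫ ω, -(1 / 2) * (Mm m₁ m₂ j l * Mm m₁ m₂ j k *
      (-dof m₁ m₂ j / lam m₁ m₂ θ j ^ 2 + 2 * SS (obs μ ω) j / lam m₁ m₂ θ j ^ 3))
      ∂(joint m₁ m₂ F) = Mm m₁ m₂ j k * (-dof m₁ m₂ j / (2 * lam m₁ m₂ θ j ^ 2)) * Mm m₁ m₂ j l := by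
    intro j
    have k1 : Integrable (fun _ : Eff m₁ m₂ ⊕ Obs m₁ m₂ → ℝ => -dof m₁ m₂ j / lam m₁ m₂ θ j ^ 2)
      (joint m₁ m₂ F) := integrable_const _
    have k2 : Integrable (fun ω => 2 * SS (obs μ ω) j / lam m₁ m₂ θ j ^ 3) (joint m₁ m₂ F) :=
      ((int_SS hF μ j).const_mul 2).div_const _
    rw [integral_const_mul, integral_const_mul, integral_add k1 k2, integral_const, integral_div,
      integral_const_mul, E_SS hF μ hm₁ hm₂]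
    have := hl j
    simp
    field_simp
    ring
  rw [Finset.sum_congr rfl fun j _ => hj j]
  rw [Matrix.mul_apply]
  refine Finset.sum_congr rfl fun j _ => ?_
  rw [Matrix.mul_diagonal, Matrix.transpose_apply]

end ints

/-- `h' A⁻¹ b` -/
lemma hAb (hF : Admissible F θ κ) (μ : ℝ) (hm₁ : 2 ≤ m₁) (hm₂ : 2 ≤ m₂) (a₀ : ℝ)
    (a₁ : Fin m₁ → ℝ) (a₂ : Fin m₂ → ℝ) (y : Obs m₁ m₂ → ℝ) :
    hvec a₀ a₁ a₂ θ y ⬝ᵥ ((Amat m₁ m₂ F μ θ)⁻¹ *ᵥ bvec θ y) =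
      ∑ j, eta a₁ a₂ θ y j * (lam m₁ m₂ θ j - SS y j / dof m₁ m₂ j) := by
  have h1 : 0 < m₁ := by omega
  have h2 : 0 < m₂ := by omega
  have h1' : (2 : ℝ) ≤ m₁ := by exact_mod_cast hm₁
  have h2' : (2 : ℝ) ≤ m₂ := by exact_mod_cast hm₂
  have hd : ∀ j, dof m₁ m₂ j ≠ 0 := by
    intro j
    have a : (m₁ : ℝ) - 1 ≠ 0 := by linarith
    have b : (m₂ : ℝ) - 1 ≠ 0 := by linarith
    fin_cases j
    · exact mul_ne_zero a b
    · exact a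
    · exact b
  have hl : ∀ j, lam m₁ m₂ θ j ≠ 0 := fun j => (lam_pos hF.pos j).ne'
  have hb : bvec θ y = (Mm m₁ m₂)ᵀ *ᵥ (fun j => -(1 / 2) *
      (dof m₁ m₂ j / lam m₁ m₂ θ j - SS y j / lam m₁ m₂ θ j ^ 2)) := by
    ext k
    rw [bvec, pd_reml h1 h2 hF.pos]
    simp only [Matrix.mulVec, dotProduct, Matrix.transpose_apply]
    refine Finset.sum_congr rfl fun j _ => ?_
    ring
  have hM : (Mm m₁ m₂).det ≠ 0 := by
    have : (Mm m₁ m₂).det = m₁ * m₂ := by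
      rw [Matrix.det_fin_three]
      simp [Mm]
      ring
    rw [this]
    positivity
  rw [hb, hvec_eq h1 h2 hF.pos, Amat_eq hF μ h1 h2, quad_inv hM]
  · refine Finset.sum_congr rfl fun j _ => ?_
    have a := hd j
    have b := hl j
    congr 1
    field_simp
  · intro j
    have a := hd j
    have b := hl j
    exact div_ne_zero (neg_ne_zero.mpr a) (by positivity)

end Q290.Eblup
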