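import Mathlib
import Pool.Agent.Q290.Eblup.AmatF

open Matrix MeasureTheory ProbabilityTheory

namespace Q290.Eblup

variable {m₁ m₂ : ℕ}

lemma mean_pow_le {n : ℕ} (hn : 0 < n) (f : Fin n → ℝ) {e : ℕ} (he : Even e) :
    ((∑ i, f i) / n) ^ e ≤ (∑ i, f i ^ e) / n := by
  have hn' : (n : ℝ) ≠ 0 := by positivity
  have h := Real.pow_arith_mean_le_arith_mean_pow_of_even Finset.univ (fun _ : Fin n => 1 / (n : ℝ))
    f (fun _ _ => by positivity) (by simp; field_simp) he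
  rw [← Finset.mul_sum, ← Finset.mul_sum] at h
  calc ((∑ i, f i) / n) ^ e = (1 / (n : ℝ) * ∑ i, f i) ^ e := by congr 1; ring
    _ ≤ 1 / (n : ℝ) * ∑ i, f i ^ e := h
    _ = (∑ i, f i ^ e) / n := by ring

lemma mean_pow_le_obs (hm₁ : 0 < m₁) (hm₂ : 0 < m₂) (f : Obs m₁ m₂ → ℝ) {e : ℕ} (he : Even e) :
    ((∑ p, f p) / (m₁ * m₂)) ^ e ≤ (∑ p, f p ^ e) / (m₁ * m₂) := by
  have hn' : (m₁ : ℝ) * m₂ ≠ 0 := by positivity
  have h := Real.pow_arith_mean_le_arith_mean_pow_of_even Finset.univ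
    (fun _ : Obs m₁ m₂ => 1 / ((m₁ : ℝ) * m₂))
    f (fun _ _ => by positivity) (by simp; field_simp) he
  rw [← Finset.mul_sum, ← Finset.mul_sum] at h
  calc ((∑ p, f p) / (m₁ * m₂)) ^ e = (1 / ((m₁ : ℝ) * m₂) * ∑ i, f i) ^ e := by congr 1; ring
    _ ≤ 1 / ((m₁ : ℝ) * m₂) * ∑ i, f i ^ e := h
    _ = _ := by ring

/-! ### sums of squares -/

lemma sum_sub_sq {n : ℕ} (r : Fin n → ℝ) (c : ℝ) :
    ∑ i, (r i - c) ^ 2 = ∑ i, r i ^ 2 - 2 * c * ∑ i, r i + n * c ^ 2 := by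
  have : ∀ i, (r i - c) ^ 2 = r i ^ 2 - 2 * c * r i + c ^ 2 := fun i => by ring
  simp only [this, Finset.sum_add_distrib, Finset.sum_sub_distrib, ← Finset.mul_sum]
  simp

lemma sum_sq_sub_le {n : ℕ} (hn : 0 < n) (r : Fin n → ℝ) (c : ℝ) :
    ∑ i, r i ^ 2 - (∑ i, r i) ^ 2 / n ≤ ∑ i, (r i - c) ^ 2 := by
  have hn' : (0 : ℝ) < n := by positivity
  rw [sum_sub_sq]
  have : 0 ≤ ((∑ i, r i) - n * c) ^ 2 / n := by positivity
  have e : ((∑ i, r i) - n * c) ^ 2 / n = (∑ i, r i) ^ 2 / n - 2 * c * (∑ i, r i) + n * c ^ 2 := by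
    field_simp; ring
  linarith

lemma sum_sq_sub_nonneg {n : ℕ} (hn : 0 < n) (r : Fin n → ℝ) :
    0 ≤ ∑ i, r i ^ 2 - (∑ i, r i) ^ 2 / n := by
  have hn' : (0 : ℝ) < n := by positivity
  have := sq_sum_le_card_mul_sum_sq (s := Finset.univ) (f := r)
  rw [Finset.card_univ, Fintype.card_fin] at this
  rw [sub_nonneg, div_le_iff₀ hn']
  linarith

lemma SSA_eq (hm₁ : 0 < m₁) (hm₂ : 0 < m₂) (y : Obs m₁ m₂ → ℝ) :
    SSA y = (∑ i, rs y i ^ 2 - (∑ i, rs y i) ^ 2 / m₁) / m₂ := by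
  have hM₁ : (m₁ : ℝ) ≠ 0 := by positivity
  have hM₂ : (m₂ : ℝ) ≠ 0 := by positivity
  rw [SSA, tot_eq_rs]; field_simp

lemma SSB_eq (hm₁ : 0 < m₁) (hm₂ : 0 < m₂) (y : Obs m₁ m₂ → ℝ) :
    SSB y = (∑ j, cs y j ^ 2 - (∑ j, cs y j) ^ 2 / m₂) / m₁ := by
  have hM₁ : (m₁ : ℝ) ≠ 0 := by positivity
  have hM₂ : (m₂ : ℝ) ≠ 0 := by positivity
  rw [SSB, tot_eq_cs]; field_simp

lemma SSA_nonneg (hm₁ : 0 < m₁) (hm₂ : 0 < m₂) (y : Obs m₁ m₂ → ℝ) : 0 ≤ SSA y := by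
  rw [SSA_eq hm₁ hm₂]
  exact div_nonneg (sum_sq_sub_nonneg hm₁ _) (by positivity)
lemma SSB_nonneg (hm₁ : 0 < m₁) (hm₂ : 0 < m₂) (y : Obs m₁ m₂ → ℝ) : 0 ≤ SSB y := by
  rw [SSB_eq hm₁ hm₂]
  exact div_nonneg (sum_sq_sub_nonneg hm₂ _) (by positivity)

lemma SSA_le (hm₁ : 0 < m₁) (hm₂ : 0 < m₂) (y : Obs m₁ m₂ → ℝ) (c : ℝ) :
    SSA y ≤ (∑ i, (rs y i - c) ^ 2) / m₂ := by
  rw [SSA_eq hm₁ hm₂]
  exact div_le_div_of_nonneg_right (sum_sq_sub_le hm₁ _ c) (by positivity)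
lemma SSB_le (hm₁ : 0 < m₁) (hm₂ : 0 < m₂) (y : Obs m₁ m₂ → ℝ) (c : ℝ) :
    SSB y ≤ (∑ j, (cs y j - c) ^ 2) / m₁ := by
  rw [SSB_eq hm₁ hm₂]
  exact div_le_div_of_nonneg_right (sum_sq_sub_le hm₂ _ c) (by positivity)

lemma rs_sq_le (z : Obs m₁ m₂ → ℝ) : ∑ i, rs z i ^ 2 ≤ m₂ * ∑ p, z p ^ 2 := by
  rw [Fintype.sum_prod_type, Finset.mul_sum]
  refine Finset.sum_le_sum fun i _ => ?_
  have := sq_sum_le_card_mul_sum_sq (s := Finset.univ) (f := fun j => z (i, j))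
  simpa [rs] using this

lemma cs_sq_le (z : Obs m₁ m₂ → ℝ) : ∑ j, cs z j ^ 2 ≤ m₁ * ∑ p, z p ^ 2 := by
  rw [Fintype.sum_prod_type, Finset.sum_comm, Finset.mul_sum]
  refine Finset.sum_le_sum fun i _ => ?_
  have := sq_sum_le_card_mul_sum_sq (s := Finset.univ) (f := fun j => z (j, i))
  simpa [cs] using this

/-- adding row and column effects does not change `SSE` -/
lemma SSE_add (hm₁ : 0 < m₁) (hm₂ : 0 < m₂) (z : Obs m₁ m₂ → ℝ) (a : Fin m₁ → ℝ)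
    (b : Fin m₂ → ℝ) : SSE (fun p => z p + a p.1 + b p.2) = SSE z := by
  have hM₁ : (m₁ : ℝ) ≠ 0 := by positivity
  have hM₂ : (m₂ : ℝ) ≠ 0 := by positivity
  set z' : Obs m₁ m₂ → ℝ := fun p => z p + a p.1 + b p.2 with hz'
  have hr : ∀ i, rs z' i = rs z i + m₂ * a i + ∑ j, b j := by
    intro i; simp [rs, hz', Finset.sum_add_distrib]
  have hc : ∀ j, cs z' j = cs z j + (∑ i, a i) + m₁ * b j := by
    intro j; simp [cs, hz', Finset.sum_add_distrib]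
  have ht : tot z' = tot z + m₂ * (∑ i, a i) + m₁ * ∑ j, b j := by
    rw [tot_eq_rs]; simp only [hr, Finset.sum_add_distrib, ← Finset.mul_sum, ← tot_eq_rs]
    simp
  have hq : ∑ p, z' p ^ 2 = ∑ p, z p ^ 2 + 2 * (∑ i, a i * rs z i) + 2 * (∑ j, b j * cs z j)
      + m₂ * (∑ i, a i ^ 2) + m₁ * (∑ j, b j ^ 2) + 2 * (∑ i, a i) * ∑ j, b j := by
    have e : ∀ p : Obs m₁ m₂, z' p ^ 2 = z p ^ 2 + 2 * (z p * a p.1) + 2 * (z p * b p.2)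
        + a p.1 ^ 2 + b p.2 ^ 2 + 2 * (a p.1 * b p.2) := fun p => by rw [hz']; ring
    simp only [e, Finset.sum_add_distrib, ← Finset.mul_sum]
    have e1 : ∑ p : Obs m₁ m₂, z p * a p.1 = ∑ i, a i * rs z i := by
      rw [Fintype.sum_prod_type]
      refine Finset.sum_congr rfl fun i _ => ?_
      rw [rs, Finset.mul_sum]; exact Finset.sum_congr rfl fun j _ => by ring
    have e2 : ∑ p : Obs m₁ m₂, z p * b p.2 = ∑ j, b j * cs z j := by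
      rw [Fintype.sum_prod_type, Finset.sum_comm]
      refine Finset.sum_congr rfl fun i _ => ?_
      rw [cs, Finset.mul_sum]; exact Finset.sum_congr rfl fun j _ => by ring
    have e3 : ∑ p : Obs m₁ m₂, a p.1 ^ 2 = m₂ * ∑ i, a i ^ 2 := by
      rw [Fintype.sum_prod_type, Finset.mul_sum]; simp
    have e4 : ∑ p : Obs m₁ m₂, b p.2 ^ 2 = m₁ * ∑ i, b i ^ 2 := by
      rw [Fintype.sum_prod_type]; simp
    have e5 : ∑ p : Obs m₁ m₂, a p.1 * b p.2 = (∑ i, a i) * ∑ j, b j := by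
      rw [Fintype.sum_prod_type, Finset.sum_mul_sum]
    rw [e1, e2, e3, e4, e5]
    ring
  have hrq : ∑ i, rs z' i ^ 2 = ∑ i, rs z i ^ 2 + 2 * m₂ * (∑ i, a i * rs z i)
      + 2 * (∑ j, b j) * tot z + m₂ ^ 2 * (∑ i, a i ^ 2) + 2 * m₂ * (∑ i, a i) * (∑ j, b j)
      + m₁ * (∑ j, b j) ^ 2 := by
    have e : ∀ i, rs z' i ^ 2 = rs z i ^ 2 + 2 * m₂ * (a i * rs z i) + 2 * (∑ j, b j) * rs z i
      + m₂ ^ 2 * a i ^ 2 + 2 * m₂ * (∑ j, b j) * a i + (∑ j, b j) ^ 2 := fun i => by rw [hr]; ring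
    simp only [e, Finset.sum_add_distrib, ← Finset.mul_sum, ← tot_eq_rs]
    simp
    ring
  have hcq : ∑ j, cs z' j ^ 2 = ∑ j, cs z j ^ 2 + 2 * m₁ * (∑ j, b j * cs z j)
      + 2 * (∑ i, a i) * tot z + m₁ ^ 2 * (∑ j, b j ^ 2) + 2 * m₁ * (∑ i, a i) * (∑ j, b j)
      + m₂ * (∑ i, a i) ^ 2 := by
    have e : ∀ j, cs z' j ^ 2 = cs z j ^ 2 + 2 * m₁ * (b j * cs z j) + 2 * (∑ i, a i) * cs z j
      + m₁ ^ 2 * b j ^ 2 + 2 * m₁ * (∑ i, a i) * b j + (∑ i, a i) ^ 2 := fun i => by rw [hc]; ring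
    simp only [e, Finset.sum_add_distrib, ← Finset.mul_sum, ← tot_eq_cs]
    simp
  rw [SSE, SSE, hq, hrq, hcq, ht]
  generalize (∑ p, z p ^ 2) = s0
  generalize (∑ i, rs z i ^ 2) = s1
  generalize (∑ j, cs z j ^ 2) = s2
  generalize tot z = t
  generalize (∑ i, a i * rs z i) = u1
  generalize (∑ j, b j * cs z j) = u2
  generalize (∑ i, a i ^ 2) = u3
  generalize (∑ j, b j ^ 2) = u4
  generalize (∑ i, a i) = u5
  generalize (∑ j, b j) = u6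
  field_simp
  ring

lemma abs_SSE_le (hm₁ : 0 < m₁) (hm₂ : 0 < m₂) (z : Obs m₁ m₂ → ℝ) :
    |SSE z| ≤ 2 * ∑ p, z p ^ 2 := by
  have hM₁ : (0 : ℝ) < m₁ := by positivity
  have hM₂ : (0 : ℝ) < m₂ := by positivity
  have h1 : (∑ i, rs z i ^ 2) / m₂ ≤ ∑ p, z p ^ 2 := by
    rw [div_le_iff₀ hM₂]; linarith [rs_sq_le z]
  have h2 : (∑ j, cs z j ^ 2) / m₁ ≤ ∑ p, z p ^ 2 := by
    rw [div_le_iff₀ hM₁]; linarith [cs_sq_le z]
  have h3 : 0 ≤ SSA z := SSA_nonneg hm₁ hm₂ z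
  have h4 : 0 ≤ tot z ^ 2 / (m₁ * m₂) := by positivity
  have h5 : 0 ≤ (∑ i, rs z i ^ 2) / m₂ := by positivity
  have h6 : 0 ≤ (∑ j, cs z j ^ 2) / m₁ := by positivity
  have h7 : 0 ≤ ∑ p, z p ^ 2 := Finset.sum_nonneg fun p _ => by positivity
  unfold SSA at h3
  unfold SSE
  rw [abs_le]
  constructor <;> linarith

end Q290.Eblup
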