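import Mathlib
import Pool.Agent.Q290.Eblup.Bnd

open Matrix MeasureTheory ProbabilityTheory Filter Topology

namespace Q290.Eblup

variable {m₁ m₂ : ℕ}

/-! ### the linear forms `P₁`, `P₂` -/

noncomputable def cen {n : ℕ} (a : Fin n → ℝ) : Fin n → ℝ := fun i => a i - (∑ i, a i) / n

lemma sum_cen {n : ℕ} (hn : 0 < n) (a : Fin n → ℝ) : ∑ i, cen a i = 0 := by
  have : (n : ℝ) ≠ 0 := by positivity
  simp only [cen, Finset.sum_sub_distrib]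
  simp
  field_simp
  ring

lemma sum_cen_sq_le {n : ℕ} (hn : 0 < n) (a : Fin n → ℝ) : ∑ i, cen a i ^ 2 ≤ ∑ i, a i ^ 2 := by
  have hn' : (0 : ℝ) < n := by positivity
  simp only [cen]
  rw [sum_sub_sq]
  have : 0 ≤ (∑ i, a i) ^ 2 / n := by positivity
  have e : -(2 * ((∑ i, a i) / n) * ∑ i, a i) + n * ((∑ i, a i) / n) ^ 2 = -((∑ i, a i) ^ 2 / n) := by
    field_simp; ring
  linarith

lemma sum_mul_cen {n : ℕ} (a r : Fin n → ℝ) :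
    ∑ i, a i * (r i - (∑ i, r i) / n) = ∑ i, cen a i * r i := by
  simp only [cen, mul_sub, sub_mul, Finset.sum_sub_distrib, ← Finset.sum_mul, ← Finset.mul_sum]
  ring

noncomputable def cA (a₁ : Fin m₁ → ℝ) : Eff m₁ m₂ ⊕ Obs m₁ m₂ → ℝ :=
  Sum.elim (Sum.elim (cen a₁) (fun _ => 0)) (fun p => cen a₁ p.1 / m₂)
noncomputable def cB (a₂ : Fin m₂ → ℝ) : Eff m₁ m₂ ⊕ Obs m₁ m₂ → ℝ :=
  Sum.elim (Sum.elim (fun _ => 0) (cen a₂)) (fun p => cen a₂ p.2 / m₁)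

lemma rs_dec (μ : ℝ) (ω : Eff m₁ m₂ ⊕ Obs m₁ m₂ → ℝ) (i : Fin m₁) :
    rs (obs μ ω) i = (m₂ * μ + ∑ j, ω (Sum.inl (Sum.inr j))) +
      (m₂ * ω (Sum.inl (Sum.inl i)) + ∑ j, ω (Sum.inr (i, j))) := by
  simp only [rs, obs, Finset.sum_add_distrib, Finset.sum_const, Finset.card_univ,
    Fintype.card_fin, nsmul_eq_mul]
  ring

lemma cs_dec (μ : ℝ) (ω : Eff m₁ m₂ ⊕ Obs m₁ m₂ → ℝ) (j : Fin m₂) :
    cs (obs μ ω) j = (m₁ * μ + ∑ i, ω (Sum.inl (Sum.inl i))) +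
      (m₁ * ω (Sum.inl (Sum.inr j)) + ∑ i, ω (Sum.inr (i, j))) := by
  simp only [cs, obs, Finset.sum_add_distrib, Finset.sum_const, Finset.card_univ,
    Fintype.card_fin, nsmul_eq_mul]
  ring

lemma P1_form (hm₁ : 0 < m₁) (hm₂ : 0 < m₂) (a₁ : Fin m₁ → ℝ) (μ : ℝ)
    (ω : Eff m₁ m₂ ⊕ Obs m₁ m₂ → ℝ) : pA a₁ (obs μ ω) / m₂ = ∑ k, cA a₁ k * ω k := by
  have hM₁ : (m₁ : ℝ) ≠ 0 := by positivity
  have hM₂ : (m₂ : ℝ) ≠ 0 := by positivity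
  have hg : (m₂ : ℝ) * grand (obs μ ω) = (∑ i, rs (obs μ ω) i) / m₁ := by
    rw [grand, show (∑ p, obs μ ω p) = tot (obs μ ω) from rfl, tot_eq_rs]; field_simp
  rw [pA, hg, sum_mul_cen]
  simp only [rs_dec, mul_add]
  rw [Finset.sum_add_distrib, Finset.sum_add_distrib, ← Finset.sum_mul, ← Finset.sum_mul,
    sum_cen hm₁, zero_mul, zero_mul, Finset.sum_add_distrib]
  simp only [cA, Fintype.sum_sum_type, Sum.elim_inl, Sum.elim_inr, zero_mul,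
    Finset.sum_const_zero, Fintype.sum_prod_type, add_zero, zero_add]
  rw [add_div, Finset.sum_div, Finset.sum_div]
  congr 1
  · refine Finset.sum_congr rfl fun i _ => ?_
    field_simp
  · refine Finset.sum_congr rfl fun i _ => ?_
    rw [Finset.mul_sum, Finset.sum_div]
    refine Finset.sum_congr rfl fun j _ => ?_
    ring

lemma P2_form (hm₁ : 0 < m₁) (hm₂ : 0 < m₂) (a₂ : Fin m₂ → ℝ) (μ : ℝ)
    (ω : Eff m₁ m₂ ⊕ Obs m₁ m₂ → ℝ) : pB a₂ (obs μ ω) / m₁ = ∑ k, cB a₂ k * ω k := by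
  have hM₁ : (m₁ : ℝ) ≠ 0 := by positivity
  have hM₂ : (m₂ : ℝ) ≠ 0 := by positivity
  have hg : (m₁ : ℝ) * grand (obs μ ω) = (∑ i, cs (obs μ ω) i) / m₂ := by
    rw [grand, show (∑ p, obs μ ω p) = tot (obs μ ω) from rfl, tot_eq_cs]; field_simp
  rw [pB, hg, sum_mul_cen]
  simp only [cs_dec, mul_add]
  rw [Finset.sum_add_distrib, Finset.sum_add_distrib, ← Finset.sum_mul, ← Finset.sum_mul,
    sum_cen hm₂, zero_mul, zero_mul, Finset.sum_add_distrib]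
  simp only [cB, Fintype.sum_sum_type, Sum.elim_inl, Sum.elim_inr, zero_mul,
    Finset.sum_const_zero, add_zero, zero_add]
  rw [Fintype.sum_prod_type, Finset.sum_comm (s := (Finset.univ : Finset (Fin m₁)))]
  rw [add_div, Finset.sum_div, Finset.sum_div]
  congr 1
  · refine Finset.sum_congr rfl fun i _ => ?_
    field_simp
  · refine Finset.sum_congr rfl fun i _ => ?_
    rw [Finset.mul_sum, Finset.sum_div]
    refine Finset.sum_congr rfl fun j _ => ?_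
    ring

lemma sum_cA_le (hm₁ : 0 < m₁) (hm₂ : 0 < m₂) (a₁ : Fin m₁ → ℝ) :
    ∑ k, (cA a₁ : Eff m₁ m₂ ⊕ Obs m₁ m₂ → ℝ) k ^ 2 ≤ 2 * ∑ i, a₁ i ^ 2 := by
  have h := sum_cen_sq_le hm₁ a₁
  have hM₂ : (1 : ℝ) ≤ m₂ := by exact_mod_cast hm₂
  have h0 : 0 ≤ ∑ i, cen a₁ i ^ 2 := Finset.sum_nonneg fun i _ => by positivity
  simp only [cA, Fintype.sum_sum_type, Sum.elim_inl, Sum.elim_inr, ne_eq, OfNat.ofNat_ne_zero,
    not_false_eq_true, zero_pow, Finset.sum_const_zero, Fintype.sum_prod_type, add_zero,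
    Finset.sum_const, Finset.card_univ, Fintype.card_fin, nsmul_eq_mul, ← Finset.mul_sum, div_pow,
    ← Finset.sum_div]
  have : (m₂ : ℝ) * ((∑ i, cen a₁ i ^ 2) / m₂ ^ 2) ≤ ∑ i, cen a₁ i ^ 2 := by
    rw [show (m₂ : ℝ) * ((∑ i, cen a₁ i ^ 2) / m₂ ^ 2) = (∑ i, cen a₁ i ^ 2) / m₂ by
      field_simp]
    exact div_le_self h0 hM₂
  rw [← mul_div_assoc] at this
  linarith

lemma sum_cB_le (hm₁ : 0 < m₁) (hm₂ : 0 < m₂) (a₂ : Fin m₂ → ℝ) :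
    ∑ k, (cB a₂ : Eff m₁ m₂ ⊕ Obs m₁ m₂ → ℝ) k ^ 2 ≤ 2 * ∑ i, a₂ i ^ 2 := by
  have h := sum_cen_sq_le hm₂ a₂
  have hM₁ : (1 : ℝ) ≤ m₁ := by exact_mod_cast hm₁
  have h0 : 0 ≤ ∑ i, cen a₂ i ^ 2 := Finset.sum_nonneg fun i _ => by positivity
  simp only [cB, Fintype.sum_sum_type, Sum.elim_inl, Sum.elim_inr, ne_eq, OfNat.ofNat_ne_zero,
    not_false_eq_true, zero_pow, Finset.sum_const_zero, Fintype.sum_prod_type, zero_add,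
    Finset.sum_const, Finset.card_univ, Fintype.card_fin, nsmul_eq_mul, div_pow,
    ← Finset.sum_div]
  have : (m₁ : ℝ) * ((∑ i, cen a₂ i ^ 2) / m₁ ^ 2) ≤ ∑ i, cen a₂ i ^ 2 := by
    rw [show (m₁ : ℝ) * ((∑ i, cen a₂ i ^ 2) / m₁ ^ 2) = (∑ i, cen a₂ i ^ 2) / m₁ by
      field_simp]
    exact div_le_self h0 hM₁
  rw [← mul_div_assoc] at this
  linarith

/-! ### pointwise bounds of the sums of squares -/

noncomputable def R0 (ω : Eff m₁ m₂ ⊕ Obs m₁ m₂ → ℝ) : ℝ :=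
  (∑ p, ω (Sum.inr p) ^ 8) / (m₁ * m₂)
noncomputable def R1 (ω : Eff m₁ m₂ ⊕ Obs m₁ m₂ → ℝ) : ℝ :=
  128 * ((∑ i, ω (Sum.inl (Sum.inl i)) ^ 8) / m₁ + R0 ω)
noncomputable def R2 (ω : Eff m₁ m₂ ⊕ Obs m₁ m₂ → ℝ) : ℝ :=
  128 * ((∑ j, ω (Sum.inl (Sum.inr j)) ^ 8) / m₂ + R0 ω)

lemma X0_le (hm₁ : 2 ≤ m₁) (hm₂ : 2 ≤ m₂) (t μ : ℝ) (ω : Eff m₁ m₂ ⊕ Obs m₁ m₂ → ℝ) :
    (t - SSE (obs μ ω) / (((m₁ : ℝ) - 1) * (m₂ - 1))) ^ 4 ≤ 8 * (t ^ 4 + 4096 * R0 ω) := by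
  have h1 : (2 : ℝ) ≤ m₁ := by exact_mod_cast hm₁
  have h2 : (2 : ℝ) ≤ m₂ := by exact_mod_cast hm₂
  have hp1 : 0 < m₁ := by omega
  have hp2 : 0 < m₂ := by omega
  have e : SSE (obs μ ω) = SSE (fun p => ω (Sum.inr p)) := by
    rw [← SSE_add hp1 hp2 (fun p => ω (Sum.inr p)) (fun i => μ + ω (Sum.inl (Sum.inl i)))
      (fun j => ω (Sum.inl (Sum.inr j)))]
    congr 1
    ext p
    simp only [obs]; ring
  have hd : (m₁ * m₂ : ℝ) / 4 ≤ ((m₁ : ℝ) - 1) * (m₂ - 1) := by nlinarith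
  have hd0 : (0 : ℝ) < m₁ * m₂ := by positivity
  have hd1 : (0 : ℝ) < ((m₁ : ℝ) - 1) * (m₂ - 1) := by nlinarith
  have hS := abs_SSE_le hp1 hp2 (fun p => ω (Sum.inr p))
  set S := SSE (fun p => ω (Sum.inr p)) with hSdef
  set Q := ∑ p, ω (Sum.inr p) ^ 2 with hQ
  have hQ0 : 0 ≤ Q := Finset.sum_nonneg fun p _ => by positivity
  have hb : |S / (((m₁ : ℝ) - 1) * (m₂ - 1))| ≤ 8 * (Q / (m₁ * m₂)) := by
    rw [abs_div, abs_of_pos hd1, div_le_iff₀ hd1]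
    have : 2 * Q = 8 * (Q / (m₁ * m₂)) * ((m₁ * m₂ : ℝ) / 4) := by field_simp; ring
    calc |S| ≤ 2 * Q := hS
      _ = 8 * (Q / (m₁ * m₂)) * ((m₁ * m₂ : ℝ) / 4) := this
      _ ≤ _ := mul_le_mul_of_nonneg_left hd (by positivity)
  have hb4 : (S / (((m₁ : ℝ) - 1) * (m₂ - 1))) ^ 4 ≤ 4096 * R0 ω := by
    calc (S / (((m₁ : ℝ) - 1) * (m₂ - 1))) ^ 4 = |S / (((m₁ : ℝ) - 1) * (m₂ - 1))| ^ 4 := by
          rw [← abs_pow]; exact (abs_of_nonneg (by positivity)).symm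
      _ ≤ (8 * (Q / (m₁ * m₂))) ^ 4 := pow_le_pow_left₀ (abs_nonneg _) hb 4
      _ = 4096 * (Q / (m₁ * m₂)) ^ 4 := by ring
      _ ≤ 4096 * ((∑ p, (ω (Sum.inr p) ^ 2) ^ 4) / (m₁ * m₂)) := by
          have := mean_pow_le_obs hp1 hp2 (fun p => ω (Sum.inr p) ^ 2) (e := 4) (by decide)
          linarith
      _ = 4096 * R0 ω := by simp only [R0, ← pow_mul]
  rw [e]
  have h4 := add_pow_four_le t (-(S / (((m₁ : ℝ) - 1) * (m₂ - 1))))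
  have e1 : (-(S / (((m₁ : ℝ) - 1) * (m₂ - 1)))) ^ 4 = (S / (((m₁ : ℝ) - 1) * (m₂ - 1))) ^ 4 := by
    ring
  rw [e1] at h4
  rw [sub_eq_add_neg]
  linarith

lemma one_sub_pow_le {q B : ℝ} (h : q ^ 4 ≤ B) : (1 - q) ^ 4 ≤ 8 * (1 + B) := by
  have h4 := add_pow_four_le 1 (-q)
  have e1 : (-q) ^ 4 = q ^ 4 := by ring
  rw [e1] at h4
  rw [sub_eq_add_neg]
  linarith

/-- the scalar inequality behind the bound of `SSA / ((m₁-1) λ₁)` -/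
lemma ratio_le {m m' t l s W : ℝ} (hm : 2 ≤ m) (hm' : 0 < m') (ht : 0 < t) (hl : m' * t ≤ l)
    (hW : 0 ≤ W) (hs : s ≤ m' * W) : s / ((m - 1) * l) ≤ 2 / t * (W / m) := by
  have hl0 : 0 < l := lt_of_lt_of_le (by positivity) hl
  have hm1 : 0 < m - 1 := by linarith
  rw [div_le_iff₀ (by positivity)]
  have h1 : m' * W = 2 / t * (W / m) * (m / 2 * (m' * t)) := by field_simp
  have h2 : m / 2 * (m' * t) ≤ (m - 1) * l := by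
    apply mul_le_mul (by linarith) hl (by positivity) (by linarith)
  calc s ≤ m' * W := hs
    _ = 2 / t * (W / m) * (m / 2 * (m' * t)) := h1
    _ ≤ _ := mul_le_mul_of_nonneg_left h2 (by positivity)

lemma q1_le (hm₁ : 2 ≤ m₁) (hm₂ : 2 ≤ m₂) {θ : Fin 3 → ℝ} (hθ : ∀ k, 0 < θ k) (μ : ℝ)
    (ω : Eff m₁ m₂ ⊕ Obs m₁ m₂ → ℝ) :
    (SSA (obs μ ω) / (((m₁ : ℝ) - 1) * l1 m₂ θ)) ^ 4 ≤ 16 / θ 1 ^ 4 * R1 ω := by
  have h1 : (2 : ℝ) ≤ m₁ := by exact_mod_cast hm₁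
  have h2 : (2 : ℝ) ≤ m₂ := by exact_mod_cast hm₂
  have hp1 : 0 < m₁ := by omega
  have hp2 : 0 < m₂ := by omega
  have ht := hθ 1
  have hl : (m₂ : ℝ) * θ 1 ≤ l1 m₂ θ := by unfold l1; linarith [hθ 0]
  have hl0 := l1_pos hθ m₂
  set w : Fin m₁ → ℝ := fun i => ω (Sum.inl (Sum.inl i)) + (∑ j, ω (Sum.inr (i, j))) / m₂ with hw
  have hs : SSA (obs μ ω) ≤ m₂ * ∑ i, w i ^ 2 := by
    refine (SSA_le hp1 hp2 (obs μ ω) (m₂ * μ + ∑ j, ω (Sum.inl (Sum.inr j)))).trans_eq ?_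
    rw [Finset.sum_div, Finset.mul_sum]
    refine Finset.sum_congr rfl fun i _ => ?_
    rw [rs_dec, hw]
    field_simp
    ring
  have hW : 0 ≤ ∑ i, w i ^ 2 := Finset.sum_nonneg fun i _ => by positivity
  have hq := ratio_le h1 (by positivity) ht hl hW hs
  have hq0 : 0 ≤ SSA (obs μ ω) / (((m₁ : ℝ) - 1) * l1 m₂ θ) :=
    div_nonneg (SSA_nonneg hp1 hp2 _) (mul_nonneg (by linarith) hl0.le)
  have hw8 : ∀ i, (w i ^ 2) ^ 4 ≤ 128 * (ω (Sum.inl (Sum.inl i)) ^ 8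
      + (∑ j, ω (Sum.inr (i, j)) ^ 8) / m₂) := by
    intro i
    rw [← pow_mul]
    have a := add_pow_eight_le (ω (Sum.inl (Sum.inl i))) ((∑ j, ω (Sum.inr (i, j))) / m₂)
    have b := mean_pow_le hp2 (fun j => ω (Sum.inr (i, j))) (e := 8) (by decide)
    simp only [hw]
    norm_num
    linarith
  calc (SSA (obs μ ω) / (((m₁ : ℝ) - 1) * l1 m₂ θ)) ^ 4
      ≤ (2 / θ 1 * ((∑ i, w i ^ 2) / m₁)) ^ 4 := pow_le_pow_left₀ hq0 hq 4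
    _ = 16 / θ 1 ^ 4 * ((∑ i, w i ^ 2) / m₁) ^ 4 := by ring
    _ ≤ 16 / θ 1 ^ 4 * ((∑ i, (w i ^ 2) ^ 4) / m₁) :=
        mul_le_mul_of_nonneg_left (mean_pow_le hp1 _ (by decide)) (by positivity)
    _ ≤ 16 / θ 1 ^ 4 * ((∑ i, 128 * (ω (Sum.inl (Sum.inl i)) ^ 8
      + (∑ j, ω (Sum.inr (i, j)) ^ 8) / m₂)) / m₁) :=
        mul_le_mul_of_nonneg_left (div_le_div_of_nonneg_right
          (Finset.sum_le_sum fun i _ => hw8 i) (by positivity)) (by positivity)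
    _ = 16 / θ 1 ^ 4 * R1 ω := by
        rw [R1, R0, Fintype.sum_prod_type, ← Finset.mul_sum, Finset.sum_add_distrib,
          ← Finset.sum_div]
        field_simp

lemma q2_le (hm₁ : 2 ≤ m₁) (hm₂ : 2 ≤ m₂) {θ : Fin 3 → ℝ} (hθ : ∀ k, 0 < θ k) (μ : ℝ)
    (ω : Eff m₁ m₂ ⊕ Obs m₁ m₂ → ℝ) :
    (SSB (obs μ ω) / (((m₂ : ℝ) - 1) * l2 m₁ θ)) ^ 4 ≤ 16 / θ 2 ^ 4 * R2 ω := by
  have h1 : (2 : ℝ) ≤ m₁ := by exact_mod_cast hm₁
  have h2 : (2 : ℝ) ≤ m₂ := by exact_mod_cast hm₂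
  have hp1 : 0 < m₁ := by omega
  have hp2 : 0 < m₂ := by omega
  have ht := hθ 2
  have hl : (m₁ : ℝ) * θ 2 ≤ l2 m₁ θ := by unfold l2; linarith [hθ 0]
  have hl0 := l2_pos hθ m₁
  set w : Fin m₂ → ℝ := fun j => ω (Sum.inl (Sum.inr j)) + (∑ i, ω (Sum.inr (i, j))) / m₁ with hw
  have hs : SSB (obs μ ω) ≤ m₁ * ∑ i, w i ^ 2 := by
    refine (SSB_le hp1 hp2 (obs μ ω) (m₁ * μ + ∑ j, ω (Sum.inl (Sum.inl j)))).trans_eq ?_
    rw [Finset.sum_div, Finset.mul_sum]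
    refine Finset.sum_congr rfl fun i _ => ?_
    rw [cs_dec, hw]
    field_simp
    ring
  have hW : 0 ≤ ∑ i, w i ^ 2 := Finset.sum_nonneg fun i _ => by positivity
  have hq := ratio_le h2 (by positivity) ht hl hW hs
  have hq0 : 0 ≤ SSB (obs μ ω) / (((m₂ : ℝ) - 1) * l2 m₁ θ) :=
    div_nonneg (SSB_nonneg hp1 hp2 _) (mul_nonneg (by linarith) hl0.le)
  have hw8 : ∀ i, (w i ^ 2) ^ 4 ≤ 128 * (ω (Sum.inl (Sum.inr i)) ^ 8
      + (∑ j, ω (Sum.inr (j, i)) ^ 8) / m₁) := by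
    intro i
    rw [← pow_mul]
    have a := add_pow_eight_le (ω (Sum.inl (Sum.inr i))) ((∑ j, ω (Sum.inr (j, i))) / m₁)
    have b := mean_pow_le hp1 (fun j => ω (Sum.inr (j, i))) (e := 8) (by decide)
    simp only [hw]
    norm_num
    linarith
  calc (SSB (obs μ ω) / (((m₂ : ℝ) - 1) * l2 m₁ θ)) ^ 4
      ≤ (2 / θ 2 * ((∑ i, w i ^ 2) / m₂)) ^ 4 := pow_le_pow_left₀ hq0 hq 4
    _ = 16 / θ 2 ^ 4 * ((∑ i, w i ^ 2) / m₂) ^ 4 := by ring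
    _ ≤ 16 / θ 2 ^ 4 * ((∑ i, (w i ^ 2) ^ 4) / m₂) :=
        mul_le_mul_of_nonneg_left (mean_pow_le hp2 _ (by decide)) (by positivity)
    _ ≤ 16 / θ 2 ^ 4 * ((∑ i, 128 * (ω (Sum.inl (Sum.inr i)) ^ 8
      + (∑ j, ω (Sum.inr (j, i)) ^ 8) / m₁)) / m₂) :=
        mul_le_mul_of_nonneg_left (div_le_div_of_nonneg_right
          (Finset.sum_le_sum fun i _ => hw8 i) (by positivity)) (by positivity)
    _ = 16 / θ 2 ^ 4 * R2 ω := by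
        rw [R2, R0, Fintype.sum_prod_type, Finset.sum_comm, ← Finset.mul_sum,
          Finset.sum_add_distrib, ← Finset.sum_div]
        field_simp

end Q290.Eblup
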