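import Mathlib
import Pool.Agent.Q290.Eblup.Main

open Matrix MeasureTheory ProbabilityTheory Filter Topology

namespace Q290.Eblup

variable {m₁ m₂ : ℕ} {F : Fin 3 → Measure ℝ} {θ κ : Fin 3 → ℝ}

/-- the sum of the eighth moments -/
noncomputable def M8 (F : Fin 3 → Measure ℝ) : ℝ := ∑ k, ∫ x, x ^ 8 ∂(F k)

lemma le_M8 (F : Fin 3 → Measure ℝ) (k : Fin 3) : ∫ x, x ^ 8 ∂(F k) ≤ M8 F :=
  Finset.single_le_sum (f := fun k => ∫ x, x ^ 8 ∂(F k))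
    (fun k _ => integral_nonneg fun x => by positivity) (Finset.mem_univ k)

lemma E_eighth (hF : Admissible F θ κ) (k : Eff m₁ m₂ ⊕ Obs m₁ m₂) :
    ∫ ω, ω k ^ 8 ∂(joint m₁ m₂ F) ≤ M8 F := by
  have := lawFam_prob (m₁ := m₁) (m₂ := m₂) hF
  rw [joint, integral_eval_pow]
  rcases k with (i | j) | p
  · exact le_M8 F 1
  · exact le_M8 F 2
  · exact le_M8 F 0

lemma int_eighth (hF : Admissible F θ κ) (k : Eff m₁ m₂ ⊕ Obs m₁ m₂) :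
    Integrable (fun ω => ω k ^ 8) (joint m₁ m₂ F) := (coord_L8 hF k).2

lemma int_R0 (hF : Admissible F θ κ) : Integrable R0 (joint m₁ m₂ F) :=
  (integrable_finsetSum _ fun _ _ => int_eighth hF _).div_const _
lemma int_R1 (hF : Admissible F θ κ) : Integrable R1 (joint m₁ m₂ F) :=
  (((integrable_finsetSum _ fun _ _ => int_eighth hF _).div_const _).add (int_R0 hF)).const_mul _
lemma int_R2 (hF : Admissible F θ κ) : Integrable R2 (joint m₁ m₂ F) :=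
  (((integrable_finsetSum _ fun _ _ => int_eighth hF _).div_const _).add (int_R0 hF)).const_mul _

lemma E_R0 (hF : Admissible F θ κ) (hm₁ : 0 < m₁) (hm₂ : 0 < m₂) :
    ∫ ω, R0 ω ∂(joint m₁ m₂ F) ≤ M8 F := by
  unfold R0
  rw [integral_div, integral_finsetSum _ fun p _ => int_eighth hF _, div_le_iff₀ (by positivity)]
  calc ∑ p : Obs m₁ m₂, ∫ ω, ω (Sum.inr p) ^ 8 ∂(joint m₁ m₂ F) ≤ ∑ _p : Obs m₁ m₂, M8 F :=
        Finset.sum_le_sum fun p _ => E_eighth hF _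
    _ = M8 F * (m₁ * m₂) := by simp; ring

lemma E_R1 (hF : Admissible F θ κ) (hm₁ : 0 < m₁) (hm₂ : 0 < m₂) :
    ∫ ω, R1 ω ∂(joint m₁ m₂ F) ≤ 256 * M8 F := by
  unfold R1
  have hi : Integrable (fun ω : Eff m₁ m₂ ⊕ Obs m₁ m₂ → ℝ =>
      (∑ i, ω (Sum.inl (Sum.inl i)) ^ 8) / (m₁ : ℝ)) (joint m₁ m₂ F) :=
    (integrable_finsetSum _ fun p _ => int_eighth hF _).div_const _
  rw [integral_const_mul, integral_add hi (int_R0 hF)]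
  have h0 := E_R0 hF hm₁ hm₂
  have h1 : ∫ ω : Eff m₁ m₂ ⊕ Obs m₁ m₂ → ℝ, (∑ i, ω (Sum.inl (Sum.inl i)) ^ 8) / (m₁ : ℝ)
      ∂(joint m₁ m₂ F) ≤ M8 F := by
    rw [integral_div, integral_finsetSum _ fun p _ => int_eighth hF _, div_le_iff₀ (by positivity)]
    calc ∑ i : Fin m₁, ∫ ω, ω (Sum.inl (Sum.inl i)) ^ 8 ∂(joint m₁ m₂ F)
        ≤ ∑ _i : Fin m₁, M8 F := Finset.sum_le_sum fun p _ => E_eighth hF _
      _ = M8 F * m₁ := by simp; ring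
  linarith

lemma E_R2 (hF : Admissible F θ κ) (hm₁ : 0 < m₁) (hm₂ : 0 < m₂) :
    ∫ ω, R2 ω ∂(joint m₁ m₂ F) ≤ 256 * M8 F := by
  unfold R2
  have hi : Integrable (fun ω : Eff m₁ m₂ ⊕ Obs m₁ m₂ → ℝ =>
      (∑ i, ω (Sum.inl (Sum.inr i)) ^ 8) / (m₂ : ℝ)) (joint m₁ m₂ F) :=
    (integrable_finsetSum _ fun p _ => int_eighth hF _).div_const _
  rw [integral_const_mul, integral_add hi (int_R0 hF)]
  have h0 := E_R0 hF hm₁ hm₂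
  have h1 : ∫ ω : Eff m₁ m₂ ⊕ Obs m₁ m₂ → ℝ, (∑ i, ω (Sum.inl (Sum.inr i)) ^ 8) / (m₂ : ℝ)
      ∂(joint m₁ m₂ F) ≤ M8 F := by
    rw [integral_div, integral_finsetSum _ fun p _ => int_eighth hF _, div_le_iff₀ (by positivity)]
    calc ∑ i : Fin m₂, ∫ ω, ω (Sum.inl (Sum.inr i)) ^ 8 ∂(joint m₁ m₂ F)
        ≤ ∑ _i : Fin m₂, M8 F := Finset.sum_le_sum fun p _ => E_eighth hF _
      _ = M8 F * m₂ := by simp; ring
  linarith

/-- the scalar inequality: `T² ≤ (2/m²) U` -/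
lemma scalar_bound {m t0 t1 t2 L1 L2 p1 p2 x q1 q2 X Q1 Q2 : ℝ} (hm : 0 < m) (h1 : 0 < t1)
    (h2 : 0 < t2) (hL1 : m * t1 ≤ L1) (hL2 : m * t2 ≤ L2) (hX : x ^ 4 ≤ X)
    (hQ1 : (1 - q1) ^ 4 ≤ Q1) (hQ2 : (1 - q2) ^ 4 ≤ Q2) :
    (-(p1 / L1) * x - (p2 / L2) * x + t0 * (p1 / L1) * (1 - q1) + t0 * (p2 / L2) * (1 - q2)) ^ 2 ≤
      2 / m ^ 2 * ((p1 ^ 4 + X) / t1 ^ 2 + (p2 ^ 4 + X) / t2 ^ 2 + t0 ^ 2 * ((p1 ^ 4 + Q1) / t1 ^ 2)
        + t0 ^ 2 * ((p2 ^ 4 + Q2) / t2 ^ 2)) := by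
  have hL1' : 0 < L1 := lt_of_lt_of_le (by positivity) hL1
  have hL2' : 0 < L2 := lt_of_lt_of_le (by positivity) hL2
  have key : ∀ {t L p z Z : ℝ}, 0 < t → m * t ≤ L → z ^ 4 ≤ Z →
      (p / L) ^ 2 * z ^ 2 ≤ 1 / (2 * m ^ 2) * ((p ^ 4 + Z) / t ^ 2) := by
    intro t L p z Z ht hL hZ
    have hL' : 0 < L := lt_of_lt_of_le (by positivity) hL
    have h3 : (p / L) ^ 2 ≤ p ^ 2 / (m * t) ^ 2 := by
      rw [div_pow]
      exact div_le_div_of_nonneg_left (by positivity) (by positivity)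
        (pow_le_pow_left₀ (by positivity) hL 2)
    calc (p / L) ^ 2 * z ^ 2 ≤ p ^ 2 / (m * t) ^ 2 * z ^ 2 :=
          mul_le_mul_of_nonneg_right h3 (by positivity)
      _ = (p ^ 2 * z ^ 2) / (m * t) ^ 2 := by ring
      _ ≤ ((p ^ 4 + Z) / 2) / (m * t) ^ 2 := by
          apply div_le_div_of_nonneg_right _ (by positivity)
          nlinarith [sq_nonneg (p ^ 2 - z ^ 2)]
      _ = _ := by field_simp
  have k1 := key (p := p1) h1 hL1 hX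
  have k2 := key (p := p2) h2 hL2 hX
  have k3 := key (p := p1) h1 hL1 hQ1
  have k4 := key (p := p2) h2 hL2 hQ2
  have four : ∀ a b c d : ℝ, (-a - b + c + d) ^ 2 ≤ 4 * (a ^ 2 + b ^ 2 + c ^ 2 + d ^ 2) := by
    intro a b c d
    nlinarith [sq_nonneg (a - b), sq_nonneg (a + c), sq_nonneg (a + d), sq_nonneg (b + c),
      sq_nonneg (b + d), sq_nonneg (c - d)]
  have hsq : (-(p1 / L1) * x - (p2 / L2) * x + t0 * (p1 / L1) * (1 - q1)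
      + t0 * (p2 / L2) * (1 - q2)) ^ 2 ≤ 4 * ((p1 / L1) ^ 2 * x ^ 2 + (p2 / L2) ^ 2 * x ^ 2
      + t0 ^ 2 * ((p1 / L1) ^ 2 * (1 - q1) ^ 2) + t0 ^ 2 * ((p2 / L2) ^ 2 * (1 - q2) ^ 2)) := by
    have := four ((p1 / L1) * x) ((p2 / L2) * x) (t0 * (p1 / L1) * (1 - q1))
      (t0 * (p2 / L2) * (1 - q2))
    calc _ = (-((p1 / L1) * x) - (p2 / L2) * x + t0 * (p1 / L1) * (1 - q1)
        + t0 * (p2 / L2) * (1 - q2)) ^ 2 := by ring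
      _ ≤ _ := this
      _ = _ := by ring
  refine hsq.trans ?_
  have k3' := mul_le_mul_of_nonneg_left k3 (sq_nonneg t0)
  have k4' := mul_le_mul_of_nonneg_left k4 (sq_nonneg t0)
  have e : 2 / m ^ 2 * ((p1 ^ 4 + X) / t1 ^ 2 + (p2 ^ 4 + X) / t2 ^ 2
        + t0 ^ 2 * ((p1 ^ 4 + Q1) / t1 ^ 2) + t0 ^ 2 * ((p2 ^ 4 + Q2) / t2 ^ 2)) =
      4 * (1 / (2 * m ^ 2) * ((p1 ^ 4 + X) / t1 ^ 2) + 1 / (2 * m ^ 2) * ((p2 ^ 4 + X) / t2 ^ 2)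
        + t0 ^ 2 * (1 / (2 * m ^ 2) * ((p1 ^ 4 + Q1) / t1 ^ 2))
        + t0 ^ 2 * (1 / (2 * m ^ 2) * ((p2 ^ 4 + Q2) / t2 ^ 2))) := by
    have : 2 / m ^ 2 = 4 * (1 / (2 * m ^ 2)) := by field_simp; norm_num
    rw [this]; ring
  rw [e]
  linarith

/-- the constant -/
noncomputable def BB (F : Fin 3 → Measure ℝ) (θ κ : Fin 3 → ℝ) (C : ℝ) : ℝ :=
  (12 * KK θ κ * C ^ 4 + 8 * (θ 0 ^ 4 + 4096 * M8 F)) / θ 1 ^ 2
  + (12 * KK θ κ * C ^ 4 + 8 * (θ 0 ^ 4 + 4096 * M8 F)) / θ 2 ^ 2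
  + θ 0 ^ 2 * ((12 * KK θ κ * C ^ 4 + 8 * (1 + 16 / θ 1 ^ 4 * (256 * M8 F))) / θ 1 ^ 2)
  + θ 0 ^ 2 * ((12 * KK θ κ * C ^ 4 + 8 * (1 + 16 / θ 2 ^ 4 * (256 * M8 F))) / θ 2 ^ 2)

theorem g3_le (hF : Admissible F θ κ) (μ : ℝ) (hm₁ : 2 ≤ m₁) (hm₂ : 2 ≤ m₂) (a₀ : ℝ)
    (a₁ : Fin m₁ → ℝ) (a₂ : Fin m₂ → ℝ) {C : ℝ} (h1 : ∑ i, a₁ i ^ 2 ≤ C ^ 2)
    (h2 : ∑ j, a₂ j ^ 2 ≤ C ^ 2) :
    g3 F μ θ a₀ a₁ a₂ ≤ 2 / (min (m₁ : ℝ) m₂) ^ 2 * BB F θ κ C := by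
  have hP := joint_prob (m₁ := m₁) (m₂ := m₂) hF
  have hp1 : 0 < m₁ := by omega
  have hp2 : 0 < m₂ := by omega
  have hM1 : (2 : ℝ) ≤ m₁ := by exact_mod_cast hm₁
  have hM2 : (2 : ℝ) ≤ m₂ := by exact_mod_cast hm₂
  set m : ℝ := min (m₁ : ℝ) m₂ with hm
  have hmpos : 0 < m := lt_min (by positivity) (by positivity)
  have ht0 := hF.pos 0
  have ht1 := hF.pos 1
  have ht2 := hF.pos 2
  have hL1 : m * θ 1 ≤ l1 m₂ θ := by
    unfold l1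
    have := mul_le_mul_of_nonneg_right (min_le_right (m₁ : ℝ) m₂) ht1.le
    linarith
  have hL2 : m * θ 2 ≤ l2 m₁ θ := by
    unfold l2
    have := mul_le_mul_of_nonneg_right (min_le_left (m₁ : ℝ) m₂) ht2.le
    linarith
  have hl1 := l1_pos hF.pos m₂
  have hl2 := l2_pos hF.pos m₁
  -- the pointwise bound
  set p1 : (Eff m₁ m₂ ⊕ Obs m₁ m₂ → ℝ) → ℝ := fun ω => ∑ k, cA a₁ k * ω k with hp1d
  set p2 : (Eff m₁ m₂ ⊕ Obs m₁ m₂ → ℝ) → ℝ := fun ω => ∑ k, cB a₂ k * ω k with hp2d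
  set U : (Eff m₁ m₂ ⊕ Obs m₁ m₂ → ℝ) → ℝ := fun ω =>
    ((p1 ω ^ 4 + 8 * (θ 0 ^ 4 + 4096 * R0 ω)) / θ 1 ^ 2
      + (p2 ω ^ 4 + 8 * (θ 0 ^ 4 + 4096 * R0 ω)) / θ 2 ^ 2
      + θ 0 ^ 2 * ((p1 ω ^ 4 + 8 * (1 + 16 / θ 1 ^ 4 * R1 ω)) / θ 1 ^ 2)
      + θ 0 ^ 2 * ((p2 ω ^ 4 + 8 * (1 + 16 / θ 2 ^ 4 * R2 ω)) / θ 2 ^ 2)) with hU
  have hpt : ∀ ω, (hvec a₀ a₁ a₂ θ (obs μ ω) ⬝ᵥ
      ((Amat m₁ m₂ F μ θ)⁻¹ *ᵥ bvec θ (obs μ ω))) ^ 2 ≤ 2 / m ^ 2 * U ω := by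
    intro ω
    rw [hAb hF μ hm₁ hm₂]
    have hb := scalar_bound (t0 := θ 0) (p1 := p1 ω) (p2 := p2 ω) hmpos ht1 ht2 hL1 hL2
      (X0_le hm₁ hm₂ (θ 0) μ ω) (one_sub_pow_le (q1_le hm₁ hm₂ hF.pos μ ω))
      (one_sub_pow_le (q2_le hm₁ hm₂ hF.pos μ ω))
    refine le_trans (le_of_eq ?_) hb
    congr 1
    have e1 : pA a₁ (obs μ ω) = m₂ * p1 ω := by
      rw [hp1d]; simp only; rw [← P1_form hp1 hp2 a₁ μ ω]; field_simp
    have e2 : pB a₂ (obs μ ω) = m₁ * p2 ω := by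
      rw [hp2d]; simp only; rw [← P2_form hp1 hp2 a₂ μ ω]; field_simp
    have d1 : (m₁ : ℝ) - 1 ≠ 0 := by linarith
    have d2 : (m₂ : ℝ) - 1 ≠ 0 := by linarith
    simp only [Fin.sum_univ_three, eta, lam, SS, dof, Matrix.cons_val_zero, Matrix.cons_val_one,
      Matrix.cons_val_two, Matrix.head_cons, Matrix.tail_cons, e1, e2]
    field_simp
  have hUi : Integrable U (joint m₁ m₂ F) := by
    have i1 : Integrable (fun ω => p1 ω ^ 4) (joint m₁ m₂ F) :=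
      (L8.sum Finset.univ fun k _ => (coord_L8 hF k).const_mul _).int (by norm_num)
    have i2 : Integrable (fun ω => p2 ω ^ 4) (joint m₁ m₂ F) :=
      (L8.sum Finset.univ fun k _ => (coord_L8 hF k).const_mul _).int (by norm_num)
    have r0 : Integrable (fun ω => 8 * (θ 0 ^ 4 + 4096 * R0 ω)) (joint m₁ m₂ F) :=
      ((integrable_const _).add ((int_R0 hF).const_mul _)).const_mul _
    have r1 : Integrable (fun ω => 8 * (1 + 16 / θ 1 ^ 4 * R1 ω)) (joint m₁ m₂ F) :=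
      ((integrable_const _).add ((int_R1 hF).const_mul _)).const_mul _
    have r2 : Integrable (fun ω => 8 * (1 + 16 / θ 2 ^ 4 * R2 ω)) (joint m₁ m₂ F) :=
      ((integrable_const _).add ((int_R2 hF).const_mul _)).const_mul _
    exact ((((i1.add r0).div_const _).add ((i2.add r0).div_const _)).add
      (((i1.add r1).div_const _).const_mul _)).add (((i2.add r2).div_const _).const_mul _)
  have hUE : ∫ ω, U ω ∂(joint m₁ m₂ F) ≤ BB F θ κ C := by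
    have i1 : Integrable (fun ω => p1 ω ^ 4) (joint m₁ m₂ F) :=
      (L8.sum Finset.univ fun k _ => (coord_L8 hF k).const_mul _).int (by norm_num)
    have i2 : Integrable (fun ω => p2 ω ^ 4) (joint m₁ m₂ F) :=
      (L8.sum Finset.univ fun k _ => (coord_L8 hF k).const_mul _).int (by norm_num)
    have r0 : Integrable (fun ω => 8 * (θ 0 ^ 4 + 4096 * R0 ω)) (joint m₁ m₂ F) :=
      ((integrable_const _).add ((int_R0 hF).const_mul _)).const_mul _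
    have r1 : Integrable (fun ω => 8 * (1 + 16 / θ 1 ^ 4 * R1 ω)) (joint m₁ m₂ F) :=
      ((integrable_const _).add ((int_R1 hF).const_mul _)).const_mul _
    have r2 : Integrable (fun ω => 8 * (1 + 16 / θ 2 ^ 4 * R2 ω)) (joint m₁ m₂ F) :=
      ((integrable_const _).add ((int_R2 hF).const_mul _)).const_mul _
    have s1 : Integrable (fun ω => (p1 ω ^ 4 + 8 * (θ 0 ^ 4 + 4096 * R0 ω)) / θ 1 ^ 2)
      (joint m₁ m₂ F) := (i1.add r0).div_const _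
    have s2 : Integrable (fun ω => (p2 ω ^ 4 + 8 * (θ 0 ^ 4 + 4096 * R0 ω)) / θ 2 ^ 2)
      (joint m₁ m₂ F) := (i2.add r0).div_const _
    have s3 : Integrable (fun ω => θ 0 ^ 2 * ((p1 ω ^ 4 + 8 * (1 + 16 / θ 1 ^ 4 * R1 ω)) / θ 1 ^ 2))
      (joint m₁ m₂ F) := ((i1.add r1).div_const _).const_mul _
    have s4 : Integrable (fun ω => θ 0 ^ 2 * ((p2 ω ^ 4 + 8 * (1 + 16 / θ 2 ^ 4 * R2 ω)) / θ 2 ^ 2))
      (joint m₁ m₂ F) := ((i2.add r2).div_const _).const_mul _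
    have s12 : Integrable (fun ω => (p1 ω ^ 4 + 8 * (θ 0 ^ 4 + 4096 * R0 ω)) / θ 1 ^ 2
      + (p2 ω ^ 4 + 8 * (θ 0 ^ 4 + 4096 * R0 ω)) / θ 2 ^ 2) (joint m₁ m₂ F) := s1.add s2
    have s123 : Integrable (fun ω => (p1 ω ^ 4 + 8 * (θ 0 ^ 4 + 4096 * R0 ω)) / θ 1 ^ 2
      + (p2 ω ^ 4 + 8 * (θ 0 ^ 4 + 4096 * R0 ω)) / θ 2 ^ 2
      + θ 0 ^ 2 * ((p1 ω ^ 4 + 8 * (1 + 16 / θ 1 ^ 4 * R1 ω)) / θ 1 ^ 2)) (joint m₁ m₂ F) :=
      s12.add s3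
    have c1 : Integrable (fun _ : Eff m₁ m₂ ⊕ Obs m₁ m₂ → ℝ => θ 0 ^ 4) (joint m₁ m₂ F) :=
      integrable_const _
    have c2 : Integrable (fun _ : Eff m₁ m₂ ⊕ Obs m₁ m₂ → ℝ => (1 : ℝ)) (joint m₁ m₂ F) :=
      integrable_const _
    have E1 : ∫ ω, p1 ω ^ 4 ∂(joint m₁ m₂ F) ≤ 12 * KK θ κ * C ^ 4 := by
      refine (form_moments hF (cA a₁)).2.2.trans ?_
      have h3 := sum_cA_le hp1 hp2 a₁
      have h4 : (∑ k, (cA a₁ : Eff m₁ m₂ ⊕ Obs m₁ m₂ → ℝ) k ^ 2) ≤ 2 * C ^ 2 := by linarith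
      have h5 : 0 ≤ ∑ k, (cA a₁ : Eff m₁ m₂ ⊕ Obs m₁ m₂ → ℝ) k ^ 2 :=
        Finset.sum_nonneg fun k _ => by positivity
      have h6 := pow_le_pow_left₀ h5 h4 2
      have h7 := mul_le_mul_of_nonneg_left h6 (a := 3 * KK θ κ) (by
        have := KK_nonneg (θ := θ) (κ := κ); positivity)
      nlinarith
    have E2 : ∫ ω, p2 ω ^ 4 ∂(joint m₁ m₂ F) ≤ 12 * KK θ κ * C ^ 4 := by
      refine (form_moments hF (cB a₂)).2.2.trans ?_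
      have h3 := sum_cB_le hp1 hp2 a₂
      have h4 : (∑ k, (cB a₂ : Eff m₁ m₂ ⊕ Obs m₁ m₂ → ℝ) k ^ 2) ≤ 2 * C ^ 2 := by linarith
      have h5 : 0 ≤ ∑ k, (cB a₂ : Eff m₁ m₂ ⊕ Obs m₁ m₂ → ℝ) k ^ 2 :=
        Finset.sum_nonneg fun k _ => by positivity
      have h6 := pow_le_pow_left₀ h5 h4 2
      have h7 := mul_le_mul_of_nonneg_left h6 (a := 3 * KK θ κ) (by
        have := KK_nonneg (θ := θ) (κ := κ); positivity)
      nlinarith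
    have ER0 : ∫ ω, 8 * (θ 0 ^ 4 + 4096 * R0 ω) ∂(joint m₁ m₂ F) ≤
        8 * (θ 0 ^ 4 + 4096 * M8 F) := by
      rw [integral_const_mul, integral_add c1 ((int_R0 hF).const_mul _), integral_const_mul]
      have := E_R0 hF hp1 hp2
      simp
      linarith
    have ER1 : ∫ ω, 8 * (1 + 16 / θ 1 ^ 4 * R1 ω) ∂(joint m₁ m₂ F) ≤
        8 * (1 + 16 / θ 1 ^ 4 * (256 * M8 F)) := by
      rw [integral_const_mul, integral_add c2 ((int_R1 hF).const_mul _), integral_const_mul]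
      have := mul_le_mul_of_nonneg_left (E_R1 hF hp1 hp2) (a := 16 / θ 1 ^ 4) (by positivity)
      simp only [integral_const, probReal_univ, smul_eq_mul, one_mul]
      linarith
    have ER2 : ∫ ω, 8 * (1 + 16 / θ 2 ^ 4 * R2 ω) ∂(joint m₁ m₂ F) ≤
        8 * (1 + 16 / θ 2 ^ 4 * (256 * M8 F)) := by
      rw [integral_const_mul, integral_add c2 ((int_R2 hF).const_mul _), integral_const_mul]
      have := mul_le_mul_of_nonneg_left (E_R2 hF hp1 hp2) (a := 16 / θ 2 ^ 4) (by positivity)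
      simp only [integral_const, probReal_univ, smul_eq_mul, one_mul]
      linarith
    rw [hU]
    rw [integral_add s123 s4, integral_add s12 s3, integral_add s1 s2, integral_div, integral_div,
      integral_const_mul, integral_const_mul, integral_div, integral_div, integral_add i1 r0,
      integral_add i2 r0, integral_add i1 r1, integral_add i2 r2]
    unfold BB
    gcongr
  calc g3 F μ θ a₀ a₁ a₂ ≤ ∫ ω, 2 / m ^ 2 * U ω ∂(joint m₁ m₂ F) := by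
        unfold g3
        refine integral_mono_of_nonneg (Eventually.of_forall fun ω => by positivity)
          (hUi.const_mul _) (Eventually.of_forall hpt)
    _ = 2 / m ^ 2 * ∫ ω, U ω ∂(joint m₁ m₂ F) := integral_const_mul _ _
    _ ≤ _ := mul_le_mul_of_nonneg_left hUE (by positivity)

lemma g3_nonneg (F : Fin 3 → Measure ℝ) (μ : ℝ) (θ : Fin 3 → ℝ) (a₀ : ℝ)
    (a₁ : Fin m₁ → ℝ) (a₂ : Fin m₂ → ℝ) : 0 ≤ g3 F μ θ a₀ a₁ a₂ :=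
  integral_nonneg fun ω => by positivity

end Q290.Eblup
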